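import Pool.Agent.J4H47.MG.Inv

/-!
# Description of the cones of `(A × F) / G`, for a system of classes
-/

set_option autoImplicit false

namespace Pool.Agent.J4H47.MG

open Finset Filter Topology
open Pool.Agent.W594.SYZ2 Pool.Agent.W594.SYZ2.TQ Pool.Agent.TH735.AQ Pool.Agent.X324.CF
open Pool.Agent.Y167 (cone cone_add cone_smul cone_le cone_mono cone_sum mem_cone_self
  zero_mem_cone cone_image cone_ind cone_of_scaled mem_cone_of_sum Rel Pol Cp CData)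
open Pool.Agent.J4H47.CG (real real_eq effConeF IsAction single_sum single_sum_int lin_ext ract
  ract_apply ract_rv reqv reqv_rv hullP hullP_mem hullP_map clos_add clos_smul clos_map ZL_span
  cp_cover cardr_pos)

variable {V E R : Type*} [NormedAddCommGroup V] [NormedSpace ℂ V] [FiniteDimensional ℂ V]
  [NormedAddCommGroup E] [NormedSpace ℂ E] [FiniteDimensional ℂ E] [CommRing R] [IsDomain R]
  [Algebra ℂ R] {ρ n : ℕ}
  {𝒜 : Cl ρ → Submodule ℂ R} [GradedAlgebra 𝒜] {Γ : Grp V R} {w : Fin n → Cl ρ}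
  {u : Cl ρ} {Ψ : Subgroup (R ≃ₐ[ℂ] R)} {P : Cl ρ → Prop} {j : E →ₗ[ℂ] V} {H₀ : V → V → ℂ}

/-- The cone of the classes with semidefinite form and degree in the nef cone of `F`. -/
def KG (𝒜 : Cl ρ → Submodule ℂ R) (Γ : Grp V R) (j : E →ₗ[ℂ] V) (P : Cl ρ → Prop) :
    Set (N1 𝒜 Γ j) :=
  {a | (∀ e, 0 ≤ ((val a).1 e e).re) ∧ (val a).2 ∈ KP P}

/-- A set of classes of `(A × F) / G` which corresponds to the system. -/
structure Good (P : Cl ρ → Prop) (𝒦 : Set (N1 𝒜 Γ j)) : Prop where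
  sub : 𝒦 ⊆ KG 𝒜 Γ j P
  bpf : ∀ L : LineBundle (base Γ), (∀ v, ∃ s, L.IsSection s ∧ s v ≠ 0) →
    ∀ a : N1 𝒜 Γ j, IsClass j (Sheaf.ofLB L : Sheaf 𝒜 Γ) (val a) → a ∈ 𝒦
  deg : ∀ β, Inv 𝒜 Γ β → P β → ∃ M : ℕ, 0 < M ∧ ∃ a : N1 𝒜 Γ j,
    (a ∈ 𝒦 ∧ a ∈ effective 𝒜 Γ j) ∧ val a = (0, (M : ℝ) • rv β)

section Basic

omit [FiniteDimensional ℂ V] [FiniteDimensional ℂ E] [IsDomain R] [GradedAlgebra 𝒜]

theorem KG_zero : (0 : N1 𝒜 Γ j) ∈ KG 𝒜 Γ j P := ⟨fun _ => le_refl (0 : ℝ), nefF_zero⟩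

theorem KG_add {a b : N1 𝒜 Γ j} (ha : a ∈ KG 𝒜 Γ j P) (hb : b ∈ KG 𝒜 Γ j P) :
    a + b ∈ KG 𝒜 Γ j P := by
  refine ⟨fun e => ?_, nefF_add ha.2 hb.2⟩
  change 0 ≤ ((val a).1 e e + (val b).1 e e).re
  rw [Complex.add_re]
  exact add_nonneg (ha.1 e) (hb.1 e)

theorem KG_smul {a : N1 𝒜 Γ j} {t : ℝ} (ht : 0 ≤ t) (ha : a ∈ KG 𝒜 Γ j P) :
    t • a ∈ KG 𝒜 Γ j P := by
  refine ⟨fun e => ?_, nefF_smul ht ha.2⟩
  change 0 ≤ (t • (val a).1 e e).re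
  rw [Complex.smul_re]
  exact mul_nonneg ht (ha.1 e)

theorem KG_closed : IsClosed (KG 𝒜 Γ j P) := by
  have hval : Continuous (val : N1 𝒜 Γ j → Pairs E ρ) := continuous_subtype_val
  have h1 : KG 𝒜 Γ j P = (⋂ e : E, {a : N1 𝒜 Γ j | 0 ≤ ((val a).1 e e).re}) ∩
      {a : N1 𝒜 Γ j | (val a).2 ∈ KP P} := by
    ext a
    simp [KG]
  rw [h1]
  refine IsClosed.inter (isClosed_iInter fun e => ?_) ?_
  · refine isClosed_le continuous_const (Complex.continuous_re.comp ?_)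
    exact (continuous_apply e).comp ((continuous_apply e).comp (continuous_fst.comp hval))
  · exact isClosed_closure.preimage (continuous_snd.comp hval)

/-- Limits along a ray. -/
theorem KG_lim {a b : N1 𝒜 Γ j} (h : ∀ ε : ℝ, 0 < ε → a + ε • b ∈ closure (KG 𝒜 Γ j P)) :
    a ∈ KG 𝒜 Γ j P := by
  rw [KG_closed.closure_eq] at h
  have h2 : Tendsto (fun k : ℕ => a + (1 / ((k : ℝ) + 1)) • b) atTop (𝓝 a) := by
    have hind : Topology.IsInducing (val : N1 𝒜 Γ j → Pairs E ρ) :=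
      Topology.IsInducing.subtypeVal
    rw [hind.tendsto_nhds_iff]
    have h3 : (val : N1 𝒜 Γ j → Pairs E ρ) ∘ (fun k : ℕ => a + (1 / ((k : ℝ) + 1)) • b)
        = fun k : ℕ => val a + (1 / ((k : ℝ) + 1)) • val b := rfl
    rw [h3]
    have h4 : Tendsto (fun k : ℕ => (1 / ((k : ℝ) + 1)) • val b) atTop (𝓝 ((0 : ℝ) • val b)) :=
      (tendsto_one_div_add_atTop_nhds_zero_nat (𝕜 := ℝ)).smul_const _
    rw [zero_smul] at h4
    have h5 := h4.const_add (val a)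
    rwa [add_zero] at h5
  exact KG_closed.mem_of_tendsto h2 (Eventually.of_forall fun k => h _ (by positivity))

/-- The limit of points of a set along a ray. -/
theorem mem_clos_of_ray {𝒬 : Set (N1 𝒜 Γ j)} {a b : N1 𝒜 Γ j}
    (h : ∀ ε : ℝ, 0 < ε → a + ε • b ∈ 𝒬) : a ∈ closure 𝒬 := by
  have h2 : Tendsto (fun k : ℕ => a + (1 / ((k : ℝ) + 1)) • b) atTop (𝓝 a) := by
    have hind : Topology.IsInducing (val : N1 𝒜 Γ j → Pairs E ρ) :=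
      Topology.IsInducing.subtypeVal
    rw [hind.tendsto_nhds_iff]
    have h3 : (val : N1 𝒜 Γ j → Pairs E ρ) ∘ (fun k : ℕ => a + (1 / ((k : ℝ) + 1)) • b)
        = fun k : ℕ => val a + (1 / ((k : ℝ) + 1)) • val b := rfl
    rw [h3]
    have h4 : Tendsto (fun k : ℕ => (1 / ((k : ℝ) + 1)) • val b) atTop (𝓝 ((0 : ℝ) • val b)) :=
      (tendsto_one_div_add_atTop_nhds_zero_nat (𝕜 := ℝ)).smul_const _
    rw [zero_smul] at h4
    have h5 := h4.const_add (val a)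
    rwa [add_zero] at h5
  exact mem_closure_of_tendsto h2 (Eventually.of_forall fun k => h _ (by positivity))

end Basic

omit [FiniteDimensional ℂ V] [FiniteDimensional ℂ E] in
/-- A multiple of an invariant effective class is the degree of an effective sheaf. -/
theorem deg_eff (D : Sys 𝒜 u Ψ P) (hQ : IsQuotient 𝒜 u Γ) {β : Cl ρ}
    (hβ : Inv 𝒜 Γ β) (hs : ∃ r ∈ 𝒜 β, r ≠ 0) : ∃ M : ℕ, 0 < M ∧ ∃ a : N1 𝒜 Γ j,
      a ∈ effective 𝒜 Γ j ∧ val a = (0, (M : ℝ) • rv β) := by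
  classical
  have := hQ.fin_gal
  have : Fintype (gal Γ) := Fintype.ofFinite _
  obtain ⟨r, hr, hr0⟩ := hs
  obtain ⟨a, ha1, ha2⟩ := exists_degclass (j := j) D.base hQ hβ 1
  have hr1 : r ∈ 𝒜 (1 • β) := by rwa [one_smul]
  exact ⟨Nat.card (gal Γ) * 1, Nat.mul_pos Nat.card_pos one_pos, a,
    ⟨_, _, ha1, ofDeg_section hr1, 0, nrm_ne_zero hr0⟩, ha2⟩

omit [FiniteDimensional ℂ V] [FiniteDimensional ℂ E] [IsDomain R] in
/-- Lifting of classes of `F`. -/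
theorem i2_lift (D : Sys 𝒜 u Ψ P) (hQ : IsQuotient 𝒜 u Γ) {𝒬 : Set (N1 𝒜 Γ j)}
    {Q : Cl ρ → Prop} (hP : ∀ β, Q β → ∃ M : ℕ, 0 < M ∧ ∃ a : N1 𝒜 Γ j, a ∈ 𝒬 ∧
      val a = (0, (M : ℝ) • rv β)) {b : Bs 𝒜 Γ} (hb : b.1 ∈ hullP Q) :
    (i2 D.base hQ b : N1 𝒜 Γ j) ∈ coneHull 𝒬 := by
  have h1 : ∀ b, b ∈ hullP Q → ∃ a : N1 𝒜 Γ j, a ∈ coneHull 𝒬 ∧ val a = (0, b) := by
    intro b hb
    refine hull_ind (p := fun b => ∃ a : N1 𝒜 Γ j, a ∈ coneHull 𝒬 ∧ val a = (0, b)) ?_ ?_ ?_ ?_ hb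
    · exact ⟨0, hull_zero, rfl⟩
    · rintro b c ⟨a, ha, h1⟩ ⟨a', ha', h2⟩
      refine ⟨a + a', hull_add ha ha', ?_⟩
      change val a + val a' = _
      rw [h1, h2, Prod.mk_add_mk, add_zero]
    · rintro t b ht ⟨a, ha, h1⟩
      refine ⟨t • a, hull_smul ht ha, ?_⟩
      change t • val a = _
      rw [h1, Prod.smul_mk, smul_zero]
    · rintro _ ⟨β, hβ, rfl⟩
      obtain ⟨M, hM, a, ha, h3⟩ := hP β hβ
      have hMr : (0 : ℝ) < M := by exact_mod_cast hM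
      refine ⟨(M : ℝ)⁻¹ • a, hull_smul (inv_nonneg.2 hMr.le) (hull_mem ha), ?_⟩
      change (M : ℝ)⁻¹ • val a = _
      rw [h3, Prod.smul_mk, smul_zero, smul_smul, inv_mul_cancel₀ hMr.ne', one_smul]
      rfl
  obtain ⟨a, ha, h2⟩ := h1 b.1 hb
  have h3 : i2 D.base hQ b = a := by
    apply val_ext
    rw [h2, val_i2]
  rw [h3]
  exact ha

omit [FiniteDimensional ℂ V] [FiniteDimensional ℂ E] [IsDomain R] in
theorem i2_semi (D : Sys 𝒜 u Ψ P) (hQ : IsQuotient 𝒜 u Γ) (hΓ : gal Γ ≤ Ψ)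
    {𝒦 : Set (N1 𝒜 Γ j)} (hP : Good P 𝒦) {b : Bs 𝒜 Γ}
    (hb : b.1 ∈ hullP P) : (i2 D.base hQ b : N1 𝒜 Γ j) ∈
      coneHull (𝒦 ∩ effective 𝒜 Γ j) := by
  have := hQ.fin_gal
  have : Fintype (gal Γ) := Fintype.ofFinite _
  refine i2_lift D hQ (Q := fun β => Inv 𝒜 Γ β ∧ P β)
    (fun β hβ => hP.deg β hβ.1 hβ.2) ?_
  exact hull_avg D hΓ D.zero D.add (fun ψ _ h => semi_sg D ψ h) b.2 hb

omit [FiniteDimensional ℂ V] [FiniteDimensional ℂ E] in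
theorem i2_eff (D : Sys 𝒜 u Ψ P) (hQ : IsQuotient 𝒜 u Γ) (hΓ : gal Γ ≤ Ψ) {b : Bs 𝒜 Γ}
    (hb : b.1 ∈ effConeF 𝒜) : (i2 D.base hQ b : N1 𝒜 Γ j) ∈ effCone 𝒜 Γ j := by
  have := hQ.fin_gal
  have : Fintype (gal Γ) := Fintype.ofFinite _
  refine i2_lift D hQ (Q := fun β => Inv 𝒜 Γ β ∧ ∃ r ∈ 𝒜 β, r ≠ 0)
    (fun β hβ => deg_eff D hQ hβ.1 hβ.2) ?_
  refine hull_avg D hΓ (Q := fun β => ∃ r ∈ 𝒜 β, r ≠ 0)
    ⟨1, SetLike.GradedOne.one_mem, one_ne_zero⟩ ?_ (fun ψ _ h => eff_sg D ψ h) b.2 hb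
  rintro β β' ⟨r, hr, hr0⟩ ⟨s, hs, hs0⟩
  exact ⟨r * s, SetLike.mul_mem_graded hr hs, mul_ne_zero hr0 hs0⟩

/-- Classes with positive definite form and degree in the interior of the cone. -/
theorem int_class (D : Sys 𝒜 u Ψ P) (hQ : IsQuotient 𝒜 u Γ) (hΓ : gal Γ ≤ Ψ)
    {𝒦 : Set (N1 𝒜 Γ j)} (hP : Good P 𝒦)
    (Rl : Rel (base Γ) j H₀) {a : N1 𝒜 Γ j} {t : ℝ}
    (ht : 0 < t) (h : ∀ e, t * (H₀ (j e) (j e)).re ≤ ((val a).1 e e).re)
    (hd : (val a).2 ∈ hullP P) :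
    a ∈ coneHull (𝒦 ∩ effective 𝒜 Γ j) := by
  rw [← split D.base hQ a]
  refine hull_add ?_ (i2_semi D hQ hΓ hP hd)
  exact i1_hull (P := 𝒦 ∩ effective 𝒜 Γ j)
    (fun L hs a ha => ⟨hP.bpf L hs a ha, bpf_effective hs ha⟩) (interior_form Rl ht h)

/-- The closed cone. -/
theorem closure_eqG (D : Sys 𝒜 u Ψ P) (hQ : IsQuotient 𝒜 u Γ) (hΓ : gal Γ ≤ Ψ)
    {𝒦 : Set (N1 𝒜 Γ j)} (hP : Good P 𝒦)
    (Rl : Rel (base Γ) j H₀) : closure (coneHull 𝒦) = KG 𝒜 Γ j P := by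
  apply Set.Subset.antisymm
  · refine closure_minimal (fun a ha => ?_) KG_closed
    exact hull_ind (p := fun a => a ∈ KG 𝒜 Γ j P) KG_zero
      (fun _ _ h1 h2 => KG_add h1 h2) (fun _ _ ht h => KG_smul ht h)
      (fun a ha => hP.sub ha) ha
  · intro a ha
    obtain ⟨y, hy, hy'⟩ := Pool.Agent.Y167.exists_ample Rl
    refine mem_clos_of_ray (b := i1 y + i2 D.base hQ ⟨rv u, Submodule.subset_span
      ⟨u, hQ.inv, rfl⟩⟩) fun ε hε => ?_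
    refine hull_le (fun b hb => hull_mem hb.1) (int_class D hQ hΓ hP Rl hε (fun e => ?_) ?_)
    · have h1 : (val (a + ε • (i1 y + i2 D.base hQ ⟨rv u, Submodule.subset_span
          ⟨u, hQ.inv, rfl⟩⟩) : N1 𝒜 Γ j)).1 e e = (val a).1 e e + ε • H₀ (j e) (j e) := by
        change (val a).1 e e + ε • (y.1 e e + 0) = _
        rw [add_zero, hy']
      rw [h1, Complex.add_re, Complex.smul_re, smul_eq_mul]
      linarith [ha.1 e]
    · have h1 : (val (a + ε • (i1 y + i2 D.base hQ ⟨rv u, Submodule.subset_span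
          ⟨u, hQ.inv, rfl⟩⟩) : N1 𝒜 Γ j)).2 = (val a).2 + ε • rv u := by
        change (val a).2 + ε • ((0 : Fin ρ → ℝ) + rv u) = _
        rw [zero_add]
      rw [h1]
      exact int_mem D ha.2 hε

omit [FiniteDimensional ℂ V] [FiniteDimensional ℂ E] [IsDomain R] [GradedAlgebra 𝒜] in
theorem eff_deg {a : N1 𝒜 Γ j} (ha : a ∈ effCone 𝒜 Γ j) : (val a).2 ∈ effConeF 𝒜 := by
  refine hull_ind (p := fun a : N1 𝒜 Γ j => (val a).2 ∈ effConeF 𝒜) ?_ ?_ ?_ ?_ ha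
  · exact hull_zero
  · intro a b h1 h2
    exact hull_add h1 h2
  · intro t a ht h1
    exact hull_smul ht h1
  · rintro a ⟨𝓛, f, ⟨-, h2⟩, hf, v, hv⟩
    have h3 : (val a).2 = rv 𝓛.deg := funext h2
    rw [h3]
    exact hull_mem ⟨_, ⟨f v, hf.mem v, hv⟩, rfl⟩

omit [FiniteDimensional ℂ V] [FiniteDimensional ℂ E] [IsDomain R] [GradedAlgebra 𝒜] in
theorem Cp_add {a b : N1 𝒜 Γ j} (ha : a ∈ Cp (intL 𝒜 Γ j) (KG 𝒜 Γ j P))
    (hb : b ∈ Cp (intL 𝒜 Γ j) (KG 𝒜 Γ j P)) : a + b ∈ Cp (intL 𝒜 Γ j) (KG 𝒜 Γ j P) := by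
  classical
  obtain ⟨S, hS, h1⟩ := ha
  obtain ⟨T, hT, h2⟩ := hb
  refine ⟨S ∪ T, fun c hc => ?_, cone_add (cone_mono Finset.subset_union_left h1)
    (cone_mono Finset.subset_union_right h2)⟩
  rcases Finset.mem_union.1 hc with h | h
  · exact hS c h
  · exact hT c h

omit [FiniteDimensional ℂ V] [FiniteDimensional ℂ E] [IsDomain R] [GradedAlgebra 𝒜] in
theorem Cp_hull {a : N1 𝒜 Γ j} (ha : a ∈ coneHull {a | a ∈ integral 𝒜 Γ j ∧ a ∈ KG 𝒜 Γ j P}) :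
    a ∈ Cp (intL 𝒜 Γ j) (KG 𝒜 Γ j P) := by
  obtain ⟨S, hS, h1⟩ := ha
  exact ⟨S, fun a ha => hS ha, h1⟩

/-- The nef effective cone is spanned by the integral nef classes. -/
theorem cp_eqG (D : Sys 𝒜 u Ψ P) (Hd : HoldsP 𝒜 Ψ P w) (hQ : IsQuotient 𝒜 u Γ)
    (hΓ : gal Γ ≤ Ψ) {𝒦 : Set (N1 𝒜 Γ j)} (hP : Good P 𝒦) (Rl : Rel (base Γ) j H₀) :
    closure (coneHull 𝒦) ∩ effCone 𝒜 Γ j = Cp (intL 𝒜 Γ j) (KG 𝒜 Γ j P) := by
  classical
  have hexp := expo_pos hQ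
  have hexpr : (0 : ℝ) < expo Γ := by exact_mod_cast hexp
  have := hQ.fin_gal
  have : Fintype (gal Γ) := Fintype.ofFinite _
  have hcard : (0 : ℝ) < Nat.card (gal Γ) := by
    have : 0 < Nat.card (gal Γ) := Nat.card_pos
    exact_mod_cast this
  rw [closure_eqG D hQ hΓ hP Rl]
  apply Set.Subset.antisymm
  · rintro a ⟨haK, haE⟩
    -- the form
    have h1 : ∀ a : N1 𝒜 Γ j, a ∈ effCone 𝒜 Γ j →
        (i1 (p1 hQ a) : N1 𝒜 Γ j) ∈ Cp (intL 𝒜 Γ j) (KG 𝒜 Γ j P) := by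
      intro a ha
      refine hull_ind (p := fun a => (i1 (p1 hQ a) : N1 𝒜 Γ j) ∈
        Cp (intL 𝒜 Γ j) (KG 𝒜 Γ j P)) ?_ ?_ ?_ ?_ ha
      · rw [map_zero, map_zero]
        exact ⟨∅, by simp, zero_mem_cone _⟩
      · intro a b h1 h2
        rw [map_add, map_add]
        exact Cp_add h1 h2
      · rintro t a ht ⟨S, hS, h1⟩
        rw [map_smul, map_smul]
        exact ⟨S, hS, cone_smul h1 ht⟩
      · intro a ha
        have h2 : Pool.Agent.Y167.Integral ((expo Γ : ℝ) • p1 hQ a) := by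
          obtain ⟨𝓛, f, hc, -⟩ := ha
          exact ⟨_, isClass_toLB hQ hc⟩
        refine ⟨{i1 ((expo Γ : ℝ) • p1 hQ a)}, fun c hc => ?_, ?_⟩
        · rw [Finset.mem_singleton] at hc
          rw [hc]
          refine ⟨Int.i1 h2, ?_⟩
          rw [map_smul]
          have h5 : ∀ e, 0 ≤ ((val a).1 e e).re := effective_form hQ ha
          exact KG_smul hexpr.le ⟨h5, nefF_zero⟩
        · rw [map_smul]
          exact cone_of_scaled hexpr (Finset.mem_singleton_self _)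
    rw [← split D.base hQ a]
    refine Cp_add (h1 a haE) (Cp_hull ?_)
    -- the degree
    refine i2_lift D hQ (Q := fun β => Inv 𝒜 Γ β ∧ rv β ∈ KP P) (fun β hβ => ?_) ?_
    · have hb : rv β ∈ Bs 𝒜 Γ := Submodule.subset_span ⟨β, hβ.1, rfl⟩
      refine ⟨Nat.card (gal Γ), Nat.card_pos, (Nat.card (gal Γ) : ℝ) •
        i2 D.base hQ ⟨rv β, hb⟩, ⟨Int.i2 D.base hQ hβ.1 rfl, ?_⟩, ?_⟩
      · exact KG_smul hcard.le ⟨fun e => le_refl (0 : ℝ), hβ.2⟩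
      · rw [← map_smul, val_i2]
        rfl
    · refine hull_avg D hΓ (Q := fun β => rv β ∈ KP P) ?_ ?_ ?_ (p2 a).2
        (nefeff_rat D Hd haK.2 (eff_deg haE))
      · rw [rv_zero]
        exact nefF_zero
      · intro β β' h h'
        rw [rv_add]
        exact nefF_add h h'
      · intro ψ β h
        rw [← act_rv]
        exact act_nef D ψ h
  · rintro a ⟨S, hS, ha⟩
    refine cone_ind (p := fun a => a ∈ KG 𝒜 Γ j P ∩ effCone 𝒜 Γ j) ⟨KG_zero, hull_zero⟩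
      (fun _ _ h1 h2 => ⟨KG_add h1.1 h2.1, hull_add h1.2 h2.2⟩)
      (fun _ _ ht h => ⟨KG_smul ht h.1, hull_smul ht h.2⟩) (fun b hb => ?_) ha
    obtain ⟨hb1, hb2⟩ := hS b hb
    refine ⟨hb2, ?_⟩
    rw [← split D.base hQ b]
    refine hull_add ?_ ?_
    · have h1 := nef_form Rl (Int.p1 hQ hb1)
        (Pool.Agent.Y167.nef_smul hexpr.le (show p1 hQ b ∈ Pool.Agent.Y167.nefCone (base Γ) j
          from hb2.1))
      have h2 := i1_hull (P := effective 𝒜 Γ j) (fun L hs a ha => bpf_effective hs ha) h1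
      rw [map_smul] at h2
      have h3 := hull_smul (inv_nonneg.2 hexpr.le) h2
      rwa [smul_smul, inv_mul_cancel₀ hexpr.ne', one_smul] at h3
    · obtain ⟨β, hβ, h2⟩ := Int.p2 hb1
      refine i2_eff D hQ hΓ ?_
      change (val b).2 ∈ _
      rw [h2]
      refine rat_eff D Hd ?_
      rw [← h2]
      exact hb2.2

end Pool.Agent.J4H47.MG
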