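import Pool.Agent.J4H47.CG.Defs

/-!
# Movable classes, the movable cone conjecture for `F`, and products: definitions
-/

set_option autoImplicit false

namespace Pool.Agent.J4H47.MG

open Pool.Agent.W594.SYZ2 Pool.Agent.TH735.AQ Pool.Agent.X324.CF
open Pool.Agent.Y167 (cone)
open Pool.Agent.J4H47.CG (real effConeF IsAction)

section Fibre

variable {ρ : ℕ} {R : Type*} [CommRing R] [Algebra ℂ R] (𝒜 : Cl ρ → Submodule ℂ R)

/-- The class `β` is movable on `F`: the base locus of `O_F(β)` contains no divisor. (Effective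
divisors of `F` are given by homogeneous elements `e`; for `e = 0` the condition says that there is a
section which is not zero.) -/
def MovableF (β : Cl ρ) : Prop := ∀ β', ∀ e ∈ 𝒜 β', (∀ r ∈ 𝒜 β, e ∣ r) → IsUnit e

/-- The closed movable cone of `F`. -/
def movConeF : Set (Fin ρ → ℝ) := closure (coneHull {x | ∃ β, MovableF 𝒜 β ∧ x = real β})

/-- `F` is a normal projective variety, `ℚ`-factorial with free class group, with ample class `u` and
with the factorial Cox ring `R`: every class becomes effective and movable when a multiple of `u` is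
added; some integral linear form on `Cl(F)` (the intersection number with a curve) is positive for all
nonzero classes of the closed movable cone. `Ψ` is a group of pseudo-automorphisms of `F`
(automorphisms of `R` which permute the homogeneous pieces), and only finitely many elements of `Ψ`
(up to the automorphisms of `R` which act trivially on `F`) act trivially on `Cl(F)`. -/
structure IsVariety (u : Cl ρ) (Ψ : Subgroup (R ≃ₐ[ℂ] R)) : Prop where
  ufd : UniqueFactorizationMonoid R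
  sections : ∀ β : Cl ρ, ∃ m : ℕ, (∃ r ∈ 𝒜 (β + m • u), r ≠ 0) ∧ ∃ r ∈ 𝒜 (m • u), r ≠ 0
  ample : ∀ β : Cl ρ, ∃ m : ℕ, MovableF 𝒜 (β + m • u)
  curve : ∃ ξ : (Fin ρ → ℝ) →ₗ[ℝ] ℝ, (∀ β : Cl ρ, ∃ k : ℤ, ξ (real β) = k) ∧
    ∀ x ∈ movConeF 𝒜, x ≠ 0 → 0 < ξ x
  perm : ∀ ψ ∈ Ψ, ∃ σ, Induces 𝒜 ψ σ
  discrete : ∃ T : Set (R ≃ₐ[ℂ] R), T.Finite ∧ ∀ ψ ∈ Ψ, Induces 𝒜 ψ (AddEquiv.refl _) →
    ∃ t ∈ T, t⁻¹ * ψ ∈ Scal 𝒜

/-- The movable cone conjecture for big classes: the closed movable cone contains the rational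
polyhedral cone spanned by the classes `w i`, and the translates of this cone under `Ψ` cover the
interior of the closed movable cone. -/
structure HoldsBig (Ψ : Subgroup (R ≃ₐ[ℂ] R)) {n : ℕ} (w : Fin n → Cl ρ) : Prop where
  mem : ∀ i, real (w i) ∈ movConeF 𝒜
  cover : ∀ x ∈ interior (movConeF 𝒜), ∃ ψ ∈ Ψ, ∃ s, IsAction 𝒜 ψ s ∧
    ∃ c : Fin n → ℝ, (∀ i, 0 ≤ c i) ∧ s x = ∑ i, c i • real (w i)

/-- The movable cone conjecture, in the weak form: the cone `Mov^e(F)` contains the rational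
polyhedral cone spanned by the classes `w i`, and is covered by the translates of this cone under
`Ψ`. -/
structure HoldsM (Ψ : Subgroup (R ≃ₐ[ℂ] R)) {n : ℕ} (w : Fin n → Cl ρ) : Prop where
  mem : ∀ i, real (w i) ∈ movConeF 𝒜 ∩ effConeF 𝒜
  cover : ∀ x ∈ movConeF 𝒜 ∩ effConeF 𝒜, ∃ ψ ∈ Ψ, ∃ s, IsAction 𝒜 ψ s ∧
    ∃ c : Fin n → ℝ, (∀ i, 0 ≤ c i) ∧ s x = ∑ i, c i • real (w i)

end Fibre

/-! ### Products -/

section Product

variable {ρ k : ℕ} {R : Type*} [CommRing R] [Algebra ℂ R] (𝒜 : Cl ρ → Submodule ℂ R)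
  {ρ' : Fin k → ℕ} {R' : Fin k → Type*} [∀ i, CommRing (R' i)] [∀ i, Algebra ℂ (R' i)]

/-- `F` is the product of the varieties `F_i`, with `Cl(F) = ⨁ Cl(F_i)`: the class group of `F_i` is
`Cl (ρ' i)`, its Cox ring is `R' i`, with the pieces `ℬ i β`, the pullback of sections from `F_i` to
`F` is `p i`, and the sections of the class of `F` with the components `d β i` are the linear
combinations of products of pullbacks of sections (Künneth formula). The only functions on `F_i` are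
the constants, and `O(β)` is trivial only for `β = 0`. -/
structure IsProduct (ℬ : ∀ i, Cl (ρ' i) → Submodule ℂ (R' i)) (p : ∀ i, R' i →ₐ[ℂ] R)
    (d : Cl ρ ≃+ ∀ i, Cl (ρ' i)) : Prop where
  inj : ∀ i, Function.Injective (p i)
  const : ∀ i, ∀ r ∈ ℬ i 0, ∃ c : ℂ, r = algebraMap ℂ (R' i) c
  unit : ∀ i β, ∀ r ∈ ℬ i β, IsUnit r → β = 0
  span : ∀ β, 𝒜 β = Submodule.span ℂ {r | ∃ f : ∀ i, R' i, (∀ i, f i ∈ ℬ i (d β i)) ∧
    r = ∏ i, p i (f i)}

/-- The elements of the groups `Ψ' i`, acting on the factors of the product, are in `Ψ`. -/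
def ContainsProduct (p : ∀ i, R' i →ₐ[ℂ] R) (Ψ' : ∀ i, Subgroup (R' i ≃ₐ[ℂ] R' i))
    (Ψ : Subgroup (R ≃ₐ[ℂ] R)) : Prop :=
  ∀ i, ∀ ψ ∈ Ψ' i, ∃ φ ∈ Ψ, (∀ r, φ (p i r) = p i (ψ r)) ∧ ∀ l, l ≠ i → ∀ r, φ (p l r) = p l r

end Product

end Pool.Agent.J4H47.MG
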