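import Pool.Agent.J4H47.MG.Act

/-!
# The cones of `F`, for a system of classes
-/

set_option autoImplicit false

namespace Pool.Agent.J4H47.MG

open Finset Filter Topology
open Pool.Agent.W594.SYZ2 Pool.Agent.TH735.AQ Pool.Agent.X324.CF
open Pool.Agent.Y167 (cone cone_add cone_smul cone_le cone_mono cone_sum mem_cone_self
  zero_mem_cone cone_image cone_ind cone_of_scaled mem_cone_of_sum CData Cp)
open Pool.Agent.J4H47.CG (real real_eq effConeF IsAction single_sum single_sum_int lin_ext ract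
  ract_apply ract_rv reqv reqv_rv hullP hullP_mem hullP_map clos_add clos_smul clos_map ZL_span
  cp_cover cardr_pos)

variable {ρ n : ℕ} {R : Type*} [CommRing R] [Algebra ℂ R] {𝒜 : Cl ρ → Submodule ℂ R}
  {u : Cl ρ} {Ψ : Subgroup (R ≃ₐ[ℂ] R)} {P : Cl ρ → Prop}

/-- The closed cone spanned by the classes of the system. -/
def KP (P : Cl ρ → Prop) : Set (Fin ρ → ℝ) := closure (hullP P)

theorem nefF_zero : (0 : Fin ρ → ℝ) ∈ KP P := subset_closure hull_zero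

theorem nefF_add {a b : Fin ρ → ℝ} (ha : a ∈ KP P) (hb : b ∈ KP P) :
    a + b ∈ KP P := clos_add ha hb

theorem nefF_smul {a : Fin ρ → ℝ} {t : ℝ} (ht : 0 ≤ t) (ha : a ∈ KP P) :
    t • a ∈ KP P := clos_smul ht ha

section Ample

/-- Every real class becomes a combination of semiample classes. -/
theorem real_ample (D : Sys 𝒜 u Ψ P) : ∃ M : ℝ, 0 < M ∧ ∀ b : Fin ρ → ℝ,
    (‖b‖ * M) • rv u - b ∈ hullP P := by
  classical
  choose m hm using D.ample
  have hu : rv u ∈ hullP P := by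
    have h1 := hullP_mem (hm u)
    have h2 : rv (u + m u • u) = ((m u : ℝ) + 1) • rv u := by
      rw [rv_add, rv_nsmul]
      module
    rw [h2] at h1
    have h3 : (0 : ℝ) < (m u : ℝ) + 1 := by positivity
    have h4 := hull_smul (inv_nonneg.2 h3.le) h1
    rwa [smul_smul, inv_mul_cancel₀ h3.ne', one_smul] at h4
  set M : ℝ := ∑ k, ((m (Pi.single k 1) : ℝ) + m (-Pi.single k 1)) + 1 with hM
  refine ⟨M, by positivity, fun b => ?_⟩
  have h1 : ∀ k, (|b k| * ((m (Pi.single k 1) : ℝ) + m (-Pi.single k 1))) • rv u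
      - b k • rv (Pi.single k 1) ∈ hullP P := by
    intro k
    rcases le_total 0 (b k) with h | h
    · have h2 := hull_add (hull_smul h (hullP_mem (hm (-Pi.single k 1))))
        (hull_smul (t := b k * m (Pi.single k 1)) (by positivity) hu)
      have h3 : b k • rv (-Pi.single k 1 + m (-Pi.single k 1) • u)
          + (b k * m (Pi.single k 1)) • rv u
          = (|b k| * ((m (Pi.single k 1) : ℝ) + m (-Pi.single k 1))) • rv u
            - b k • rv (Pi.single k 1) := by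
        rw [abs_of_nonneg h, rv_add, rv_neg, rv_nsmul]
        module
      rwa [h3] at h2
    · have h2 := hull_add (hull_smul (neg_nonneg.2 h) (hullP_mem (hm (Pi.single k 1))))
        (hull_smul (t := -b k * m (-Pi.single k 1)) (mul_nonneg (neg_nonneg.2 h)
          (Nat.cast_nonneg _)) hu)
      have h3 : (-b k) • rv (Pi.single k 1 + m (Pi.single k 1) • u)
          + (-b k * m (-Pi.single k 1)) • rv u
          = (|b k| * ((m (Pi.single k 1) : ℝ) + m (-Pi.single k 1))) • rv u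
            - b k • rv (Pi.single k 1) := by
        rw [abs_of_nonpos h, rv_add, rv_nsmul]
        module
      rwa [h3] at h2
  have h2 : ∀ s : Finset (Fin ρ), (∑ k ∈ s, |b k| * ((m (Pi.single k 1) : ℝ)
      + m (-Pi.single k 1))) • rv u - ∑ k ∈ s, b k • rv (Pi.single k 1)
      ∈ hullP P := by
    intro s
    induction s using Finset.induction_on with
    | empty =>
      rw [Finset.sum_empty, Finset.sum_empty, zero_smul, sub_zero]
      exact hull_zero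
    | insert k s hk ih =>
      rw [Finset.sum_insert hk, Finset.sum_insert hk, add_smul, add_sub_add_comm]
      exact hull_add (h1 k) ih
  have h4 := h2 Finset.univ
  rw [single_sum b] at h4
  have h5 : ∑ k, |b k| * ((m (Pi.single k 1) : ℝ) + m (-Pi.single k 1)) ≤ ‖b‖ * M := by
    rw [hM, mul_add, Finset.mul_sum, mul_one]
    refine le_add_of_le_of_nonneg ?_ (norm_nonneg _)
    refine Finset.sum_le_sum fun k _ => ?_
    exact mul_le_mul_of_nonneg_right (norm_le_pi_norm b k) (by positivity)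
  have h6 := hull_add h4 (hull_smul (sub_nonneg.2 h5) hu)
  have h7 : ∀ (s t : ℝ) (v b : Fin ρ → ℝ), s • v - b + (t - s) • v = t • v - b := by
    intro s t v b
    module
  rwa [h7] at h6

theorem u_mem (D : Sys 𝒜 u Ψ P) : rv u ∈ hullP P := by
  obtain ⟨m, hm⟩ := D.ample u
  have h1 := hullP_mem hm
  have h2 : rv (u + m • u) = ((m : ℝ) + 1) • rv u := by
    rw [rv_add, rv_nsmul]
    module
  rw [h2] at h1
  have h3 : (0 : ℝ) < (m : ℝ) + 1 := by positivity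
  have h4 := hull_smul (inv_nonneg.2 h3.le) h1
  rwa [smul_smul, inv_mul_cancel₀ h3.ne', one_smul] at h4

/-- The interior of the nef cone. -/
theorem int_mem (D : Sys 𝒜 u Ψ P) {x : Fin ρ → ℝ} (hx : x ∈ KP P) {t : ℝ}
    (ht : 0 < t) : x + t • rv u ∈ hullP P := by
  obtain ⟨M, hM, h⟩ := real_ample D
  obtain ⟨y, hy, hxy⟩ := Metric.mem_closure_iff.1 hx (t / M) (by positivity)
  rw [dist_comm, dist_eq_norm] at hxy
  have h1 := hull_add hy (h (y - x))
  have h2 : 0 ≤ t - ‖y - x‖ * M := by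
    rw [lt_div_iff₀ hM] at hxy
    linarith
  have h3 := hull_add h1 (hull_smul h2 (u_mem D))
  have h4 : y + ((‖y - x‖ * M) • rv u - (y - x)) + (t - ‖y - x‖ * M) • rv u = x + t • rv u := by
    module
  rwa [h4] at h3

theorem int_mem' (D : Sys 𝒜 u Ψ P) {x : Fin ρ → ℝ} {t : ℝ}
    (ht : 0 < t) (hx : x - t • rv u ∈ KP P) : x ∈ hullP P := by
  have h1 := int_mem D hx ht
  rwa [sub_add_cancel] at h1

theorem semi_nef {x : Fin ρ → ℝ} (hx : x ∈ hullP P) : x ∈ KP P :=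
  subset_closure hx

theorem semi_eff (D : Sys 𝒜 u Ψ P) {x : Fin ρ → ℝ} (hx : x ∈ hullP P) :
    x ∈ effConeF 𝒜 := by
  refine hullP_map (LinearMap.id) (fun β hβ => ?_) hx
  obtain ⟨m, hm, r, hr, hr0⟩ := D.eff β hβ
  have hmr : (0 : ℝ) < m := by exact_mod_cast hm
  refine hull_scaled hmr ⟨m • β, ⟨r, hr, hr0⟩, ?_⟩
  rw [real_eq, rv_nsmul]
  rfl

end Ample

section Action

variable [GradedAlgebra 𝒜]

omit [GradedAlgebra 𝒜] in
theorem semi_sg (D : Sys 𝒜 u Ψ P) (ψ : Ψ) {β : Cl ρ} (h : P β) : P (sg D ψ β) :=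
  D.act ψ.1 ψ.2 _ (sg_spec D ψ) β h

omit [GradedAlgebra 𝒜] in
theorem eff_sg (D : Sys 𝒜 u Ψ P) (ψ : Ψ) {β : Cl ρ} (h : ∃ r ∈ 𝒜 β, r ≠ 0) :
    ∃ r ∈ 𝒜 (sg D ψ β), r ≠ 0 := by
  obtain ⟨r, hr, hr0⟩ := h
  exact ⟨ψ.1 r, sg_spec D ψ _ r hr, fun h => hr0 ((map_eq_zero_iff _ ψ.1.injective).1 h)⟩

theorem act_semi (D : Sys 𝒜 u Ψ P) (ψ : Ψ) {x : Fin ρ → ℝ}
    (hx : x ∈ hullP P) : act D ψ x ∈ hullP P := by
  refine hullP_map (act D ψ : (Fin ρ → ℝ) →ₗ[ℝ] (Fin ρ → ℝ)) (fun β hβ => ?_) hx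
  change act D ψ (rv β) ∈ _
  rw [act_rv]
  exact hullP_mem (semi_sg D ψ hβ)

theorem act_nef (D : Sys 𝒜 u Ψ P) (ψ : Ψ) {x : Fin ρ → ℝ} (hx : x ∈ KP P) :
    act D ψ x ∈ KP P :=
  clos_map (act D ψ : (Fin ρ → ℝ) →ₗ[ℝ] (Fin ρ → ℝ)) (fun _ h => act_semi D ψ h) hx

theorem act_eff (D : Sys 𝒜 u Ψ P) (ψ : Ψ) {x : Fin ρ → ℝ} (hx : x ∈ effConeF 𝒜) :
    act D ψ x ∈ effConeF 𝒜 := by
  refine hullP_map (act D ψ : (Fin ρ → ℝ) →ₗ[ℝ] (Fin ρ → ℝ)) (fun β hβ => ?_) hx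
  change act D ψ (rv β) ∈ _
  rw [act_rv]
  exact hullP_mem (eff_sg D ψ hβ)

theorem act_inv_apply (D : Sys 𝒜 u Ψ P) (ψ : Ψ) (x : Fin ρ → ℝ) :
    act D ψ⁻¹ (act D ψ x) = x := by
  have h1 : act D ψ⁻¹ (act D ψ x) = (act D ψ⁻¹ * act D ψ) x := rfl
  rw [h1, ← map_mul, inv_mul_cancel, map_one]
  rfl

theorem act_apply_inv (D : Sys 𝒜 u Ψ P) (ψ : Ψ) (x : Fin ρ → ℝ) :
    act D ψ (act D ψ⁻¹ x) = x := by
  have h1 := act_inv_apply D ψ⁻¹ x
  rwa [inv_inv] at h1

end Action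

/-! ### The data for the fundamental domain -/

section Data

theorem fibre_data (D : Sys 𝒜 u Ψ P) : ∃ (ξ : (Fin ρ → ℝ) →ₗ[ℝ] ℝ) (Y : Finset (Fin ρ → ℝ)),
    CData (ZL ρ) (KP P) ξ (rv u) Y := by
  classical
  obtain ⟨ξ, hξ, hpos⟩ := D.curve
  have hnn : ∀ x ∈ KP P, 0 ≤ ξ x := by
    intro x hx
    by_cases h : x = 0
    · rw [h, map_zero]
    · exact (hpos x hx h).le
  -- a lower bound
  have hlow : ∃ δ : ℝ, 0 < δ ∧ ∀ x ∈ KP P, δ * ‖x‖ ≤ ξ x := by
    have hc : IsCompact (KP P ∩ Metric.sphere (0 : Fin ρ → ℝ) 1) :=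
      (isCompact_sphere 0 1).inter_left isClosed_closure
    by_cases hne : (KP P ∩ Metric.sphere (0 : Fin ρ → ℝ) 1).Nonempty
    · obtain ⟨y, hy, hmin⟩ := hc.exists_isMinOn hne
        (LinearMap.continuous_of_finiteDimensional ξ).continuousOn
      have hy0 : y ≠ 0 := by
        rintro rfl
        have h1 := hy.2
        rw [mem_sphere_zero_iff_norm, norm_zero] at h1
        exact zero_ne_one h1
      refine ⟨ξ y, hpos y hy.1 hy0, fun x hx => ?_⟩
      by_cases h : x = 0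
      · rw [h, norm_zero, mul_zero, map_zero]
      · have hn : 0 < ‖x‖ := norm_pos_iff.2 h
        have h1 : (‖x‖⁻¹ • x) ∈ KP P ∩ Metric.sphere (0 : Fin ρ → ℝ) 1 := by
          refine ⟨nefF_smul (inv_nonneg.2 hn.le) hx, ?_⟩
          rw [mem_sphere_zero_iff_norm, norm_smul, norm_inv, norm_norm, inv_mul_cancel₀ hn.ne']
        have h2 := hmin h1
        change ξ y ≤ ξ (‖x‖⁻¹ • x) at h2
        rw [map_smul, smul_eq_mul, inv_mul_eq_div, le_div_iff₀ hn] at h2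
        exact h2
    · refine ⟨1, one_pos, fun x hx => ?_⟩
      by_cases h : x = 0
      · rw [h, norm_zero, mul_zero, map_zero]
      · exfalso
        have hn : 0 < ‖x‖ := norm_pos_iff.2 h
        apply hne
        refine ⟨‖x‖⁻¹ • x, nefF_smul (inv_nonneg.2 hn.le) hx, ?_⟩
        rw [mem_sphere_zero_iff_norm, norm_smul, norm_inv, norm_norm, inv_mul_cancel₀ hn.ne']
  obtain ⟨δ, hδ, hlow⟩ := hlow
  obtain ⟨M, hM, hampl⟩ := real_ample D
  have hadd : ∀ a ∈ KP P, ∀ b ∈ KP P, a + b ∈ KP P :=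
    fun a ha b hb => nefF_add ha hb
  have hsmul : ∀ t : ℝ, 0 ≤ t → ∀ a ∈ KP P, t • a ∈ KP P :=
    fun t ht a ha => nefF_smul ht ha
  have yL : rv u ∈ ZL ρ := ⟨u, rfl⟩
  have yK : rv u ∈ KP P := semi_nef (u_mem D)
  have yint : ∀ x : Fin ρ → ℝ, ∃ C : ℝ, 0 < C ∧ C • rv u - x ∈ KP P := by
    intro x
    refine ⟨‖x‖ * M + 1, by positivity, ?_⟩
    have h1 := nefF_add (semi_nef (hampl x)) yK
    have h2 : (‖x‖ * M) • rv u - x + rv u = (‖x‖ * M + 1) • rv u - x := by module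
    rwa [h2] at h1
  obtain ⟨Y, hY1, hY2⟩ := exists_Y hadd hsmul yL yK yint ZL_span
  refine ⟨ξ, Y,
    { add := hadd
      smul := hsmul
      xi_int := ?_
      xi_pos := hpos
      fin := fun C => ?_
      y_L := yL
      y_N := yK
      y_int := yint
      dom := fun η => ?_
      sep := fun x hx => ?_
      Y_mem := hY1
      Y_span := hY2 }⟩
  · rintro x ⟨β, rfl⟩
    exact hξ β
  · have hfin : (Set.Icc (fun _ : Fin ρ => -⌈C / δ⌉) (fun _ => ⌈C / δ⌉)).Finite :=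
      Set.finite_Icc _ _
    refine (hfin.image rv).subset ?_
    rintro x ⟨⟨β, rfl⟩, hb2, hb3⟩
    have h1 : ‖rv β‖ ≤ C / δ := by
      rw [le_div_iff₀ hδ, mul_comm]
      exact (hlow _ hb2).trans hb3
    have h4 : ∀ k, |(β k : ℝ)| ≤ C / δ := fun k => (norm_le_pi_norm (rv β) k).trans h1
    refine ⟨β, ⟨fun k => ?_, fun k => ?_⟩, rfl⟩
    · have h5 := (abs_le.1 (h4 k)).1
      have h6 : (-(⌈C / δ⌉ : ℝ)) ≤ β k := le_trans (neg_le_neg (Int.le_ceil _)) h5
      exact_mod_cast h6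
    · have h5 := (abs_le.1 (h4 k)).2
      have h6 : (β k : ℝ) ≤ ⌈C / δ⌉ := h5.trans (Int.le_ceil _)
      exact_mod_cast h6
  · let η' := LinearMap.toContinuousLinearMap η
    refine ⟨‖η'‖ / δ, fun x hx => ?_⟩
    have h1 : |η x| ≤ ‖η'‖ * ‖x‖ := η'.le_opNorm x
    have h2 := hlow x hx
    calc |η x| ≤ ‖η'‖ * ‖x‖ := h1
      _ = ‖η'‖ / δ * (δ * ‖x‖) := by field_simp
      _ ≤ ‖η'‖ / δ * ξ x := mul_le_mul_of_nonneg_left h2 (by positivity)
  · have h1 : ∃ k, x k ≠ 0 := by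
      by_contra hcon
      push Not at hcon
      exact hx (funext hcon)
    obtain ⟨k, hk⟩ := h1
    refine ⟨LinearMap.proj k, fun y hy => ?_, hk⟩
    obtain ⟨β, rfl⟩ := hy
    exact ⟨β k, rfl⟩

end Data

end Pool.Agent.J4H47.MG
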