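import Pool.Agent.J4H47.MG.Prod

/-!
# The movable cone conjecture for quotients of `A × F_1 × … × F_k`
-/

set_option autoImplicit false

namespace Pool.Agent.J4H47.MG

open Finset Filter Topology
open Pool.Agent.W594.SYZ2 Pool.Agent.W594.SYZ2.TQ Pool.Agent.TH735.AQ Pool.Agent.X324.CF
open Pool.Agent.Y167 (cone Rel)
open Pool.Agent.Y167.CC (LinGrp Preserves IsFundDomain)
open Pool.Agent.J4H47.CG (NormalizesP FixedP IsPullbackP gal_le)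

/-- A group without reflections has no ramification. -/
theorem ram_one {V : Type*} [NormedAddCommGroup V] [NormedSpace ℂ V]
    {Γ : Subgroup (V ≃ᵃ[ℂ] V)} (h : ∀ v, ¬ OnMirror Γ v) : IsRamification Γ (fun _ => 1) where
  holo := differentiable_const _
  zero_iff := fun v => ⟨fun h1 => absurd h1 one_ne_zero, fun h1 => absurd h1 (h v)⟩
  order := fun ℓ c hℓ => by
    have hex : ∃ v, ℓ v = c := by
      obtain ⟨v, hv⟩ : ∃ v, ℓ v ≠ 0 := by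
        by_contra hcon
        push Not at hcon
        exact hℓ (LinearMap.ext hcon)
      refine ⟨(c / ℓ v) • v, ?_⟩
      rw [map_smul, smul_eq_mul, div_mul_cancel₀ _ hv]
    obtain ⟨v, hv⟩ := hex
    have h1 : ramIndex Γ ℓ c = 1 := by
      rw [ramIndex, Nat.card_eq_one_iff_unique]
      refine ⟨⟨fun a b => ?_⟩, ⟨⟨1, Γ.one_mem, fun _ _ => rfl⟩⟩⟩
      have h2 : ∀ a : {γ : V ≃ᵃ[ℂ] V // γ ∈ Γ ∧ ∀ w, ℓ w = c → γ w = w}, a.1 = 1 := by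
        rintro ⟨γ, hγ, h3⟩
        by_contra hcon
        exact h v ⟨γ, hγ, hcon, ℓ, hℓ, fun w hw => h3 w (hw.trans hv)⟩
      exact Subtype.ext ((h2 a).trans (h2 b).symm)
    refine ⟨fun _ => 1, differentiable_const _, fun w => ?_, v, hv, one_ne_zero⟩
    rw [h1, Nat.sub_self, pow_zero, one_mul]

variable {V R : Type*} [NormedAddCommGroup V] [NormedSpace ℂ V] [CommRing R]
  [Algebra ℂ R] {ρ : ℕ} {𝒜 : Cl ρ → Submodule ℂ R} {Γ : Grp V R}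
  {u : Cl ρ} {Ψ : Subgroup (R ≃ₐ[ℂ] R)}

/-- The boundary zero. -/
def noDiv (𝒜 : Cl ρ → Submodule ℂ R) (Γ : Grp V R) : EffDiv 𝒜 Γ Empty where
  L := fun i => i.elim
  H := fun i => i.elim
  s := fun i => i.elim
  r := fun i => i.elim
  chern := fun i => i.elim
  sect := fun i => i.elim
  ne_zero := fun i => i.elim
  nonneg := fun i => i.elim

theorem numTrivial_noDiv {E : Type*} [NormedAddCommGroup E] [NormedSpace ℂ E] (j : E →ₗ[ℂ] V)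
    (h : ∀ v, ¬ OnMirror (vert 𝒜 Γ) v) : NumTrivial (noDiv 𝒜 Γ) j := by
  refine ⟨fun _ _ => 0, ⟨⟨fun _ _ _ => (add_zero 0).symm, fun _ _ _ => (mul_zero _).symm,
    fun _ _ => (map_zero _).symm⟩, fun _ => 1, fun _ => 0, ram_one h, differentiable_const _,
    fun γ _ v => rfl⟩, fun u w => ?_⟩
  rw [Finset.univ_eq_empty, Finset.sum_empty, add_zero]

variable [FiniteDimensional ℂ V] [IsDomain R] [GradedAlgebra 𝒜]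

/-- The movable cone conjecture for `(A × F) / G`, absolute case without boundary. -/
theorem final_abs {n : ℕ} {w : Fin n → Cl ρ} (D : IsVariety 𝒜 u Ψ) (Hd : HoldsM 𝒜 Ψ w)
    (hQ : IsQuotient 𝒜 u Γ) (hΓ : ∀ γ ∈ Γ, γ.2 ∈ Ψ)
    (hproj : ∃ (L : Sheaf 𝒜 Γ) (H : V → V → ℂ), L.IsChern H ∧ IsPositiveForm H)
    (hK : ∀ v, ¬ OnMirror (vert 𝒜 Γ) v)
    (𝒢 : LinGrp (N1 𝒜 Γ (LinearMap.id : V →ₗ[ℂ] V)))
    (h1 : Preserves 𝒢 (integral 𝒜 Γ (LinearMap.id : V →ₗ[ℂ] V)))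
    (h2 : Preserves 𝒢 (movCone 𝒜 Γ (LinearMap.id : V →ₗ[ℂ] V) ∩
      effCone 𝒜 Γ (LinearMap.id : V →ₗ[ℂ] V)))
    (h3 : ∀ g : Elt V R, g.2 ∈ Ψ → NormalizesP 𝒜 Γ g →
      ∀ G : N1 𝒜 Γ (LinearMap.id : V →ₗ[ℂ] V) ≃ₗ[ℝ] N1 𝒜 Γ (LinearMap.id : V →ₗ[ℂ] V),
        IsPullbackP g G → G ∈ 𝒢) :
    (∃ S : Finset (N1 𝒜 Γ (LinearMap.id : V →ₗ[ℂ] V)),
      ↑S ⊆ integral 𝒜 Γ (LinearMap.id : V →ₗ[ℂ] V) ∧
      cone S ⊆ movCone 𝒜 Γ (LinearMap.id : V →ₗ[ℂ] V) ∩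
        effCone 𝒜 Γ (LinearMap.id : V →ₗ[ℂ] V) ∧
      IsFundDomain 𝒢 (movCone 𝒜 Γ (LinearMap.id : V →ₗ[ℂ] V) ∩
        effCone 𝒜 Γ (LinearMap.id : V →ₗ[ℂ] V)) (cone S)) ∧
    movCone 𝒜 Γ (LinearMap.id : V →ₗ[ℂ] V) ∩ effCone 𝒜 Γ (LinearMap.id : V →ₗ[ℂ] V) =
      convexHull ℝ (movCone 𝒜 Γ (LinearMap.id : V →ₗ[ℂ] V) ∩
        {a | ∃ m : ℕ, 0 < m ∧ (m : ℝ) • a ∈ integral 𝒜 Γ (LinearMap.id : V →ₗ[ℂ] V)}) := by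
  obtain ⟨H₀, Rl⟩ := rel_id hQ hproj
  exact ⟨core D.sys Hd.holds hQ (gal_le hΓ) (good_mov D hQ) Rl (noDiv 𝒜 Γ)
    (numTrivial_noDiv _ hK) (fun _ _ _ i => i.elim) 𝒢 h1 h2
    (fun g hg1 hg2 _ _ G hG => h3 g hg1 hg2 G hG),
    plusG D.sys Hd.holds hQ (gal_le hΓ) (good_mov D hQ) Rl⟩

/-- The convex hull of the rational classes in the closed movable cone, absolute case without
boundary. -/
theorem final_plus {n : ℕ} {w : Fin n → Cl ρ} (D : IsVariety 𝒜 u Ψ) (Hd : HoldsBig 𝒜 Ψ w)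
    (hQ : IsQuotient 𝒜 u Γ) (hΓ : ∀ γ ∈ Γ, γ.2 ∈ Ψ)
    (hproj : ∃ (L : Sheaf 𝒜 Γ) (H : V → V → ℂ), L.IsChern H ∧ IsPositiveForm H)
    (hK : ∀ v, ¬ OnMirror (vert 𝒜 Γ) v)
    (𝒢 : LinGrp (N1 𝒜 Γ (LinearMap.id : V →ₗ[ℂ] V)))
    (h1 : Preserves 𝒢 (integral 𝒜 Γ (LinearMap.id : V →ₗ[ℂ] V)))
    (h2 : Preserves 𝒢 (movCone 𝒜 Γ (LinearMap.id : V →ₗ[ℂ] V)))
    (h3 : ∀ g : Elt V R, g.2 ∈ Ψ → NormalizesP 𝒜 Γ g →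
      ∀ G : N1 𝒜 Γ (LinearMap.id : V →ₗ[ℂ] V) ≃ₗ[ℝ] N1 𝒜 Γ (LinearMap.id : V →ₗ[ℂ] V),
        IsPullbackP g G → G ∈ 𝒢) :
    ∃ S : Finset (N1 𝒜 Γ (LinearMap.id : V →ₗ[ℂ] V)),
      ↑S ⊆ integral 𝒜 Γ (LinearMap.id : V →ₗ[ℂ] V) ∧
      cone S ⊆ convexHull ℝ (movCone 𝒜 Γ (LinearMap.id : V →ₗ[ℂ] V) ∩
        {a | ∃ m : ℕ, 0 < m ∧ (m : ℝ) • a ∈ integral 𝒜 Γ (LinearMap.id : V →ₗ[ℂ] V)}) ∧
      IsFundDomain 𝒢 (convexHull ℝ (movCone 𝒜 Γ (LinearMap.id : V →ₗ[ℂ] V) ∩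
        {a | ∃ m : ℕ, 0 < m ∧ (m : ℝ) • a ∈ integral 𝒜 Γ (LinearMap.id : V →ₗ[ℂ] V)}))
        (cone S) := by
  obtain ⟨H₀, Rl⟩ := rel_id hQ hproj
  exact core_plus D.sys Hd.holds hQ (gal_le hΓ) (good_mov D hQ) Rl (noDiv 𝒜 Γ)
    (numTrivial_noDiv _ hK) (fun _ _ _ i => i.elim) 𝒢 h1 h2
    (fun g hg1 hg2 _ _ G hG => h3 g hg1 hg2 G hG)

end Pool.Agent.J4H47.MG
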