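import Pool.Agent.J4H47.MG.Defs
import Pool.Agent.X324.CF.Plus2
import Mathlib.Algebra.Group.UniqueProds.VectorSpace

/-!
# Divisors of homogeneous elements
-/

set_option autoImplicit false

namespace Pool.Agent.J4H47.MG

open Finset
open Pool.Agent.X324.CF

variable {ρ : ℕ} {R : Type*} [CommRing R] [Algebra ℂ R] {𝒜 : Cl ρ → Submodule ℂ R}
  [GradedAlgebra 𝒜]

/-- A divisor of a nonzero homogeneous element of a graded domain is homogeneous. -/
theorem homog_dvd [IsDomain R] {β : Cl ρ} {r e : R} (hr : r ∈ 𝒜 β) (h0 : r ≠ 0) (h : e ∣ r) :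
    ∃ β', e ∈ 𝒜 β' := by
  classical
  obtain ⟨s, rfl⟩ := h
  have he : e ≠ 0 := left_ne_zero_of_mul h0
  have hs : s ≠ 0 := right_ne_zero_of_mul h0
  set A := (DirectSum.decompose 𝒜 e).support with hA
  set B := (DirectSum.decompose 𝒜 s).support with hB
  have hne : ∀ x : R, x ≠ 0 → (DirectSum.decompose 𝒜 x).support.Nonempty := by
    intro x hx
    rw [Finset.nonempty_iff_ne_empty]
    intro hcon
    apply hx
    rw [DFinsupp.support_eq_empty] at hcon
    have h1 := congrArg (DirectSum.decompose 𝒜).symm hcon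
    rwa [Equiv.symm_apply_apply, DirectSum.decompose_symm_zero] at h1
  have hAne : A.Nonempty := hne e he
  have hBne : B.Nonempty := hne s hs
  have hcomp : ∀ a ∈ A, ∀ b ∈ B, UniqueAdd A B a b → a + b = β := by
    intro a ha b hb hu
    by_contra hcon
    have h1 : ((DirectSum.decompose 𝒜 (e * s)) (a + b) : R) = 0 :=
      DirectSum.decompose_of_mem_ne 𝒜 hr (Ne.symm hcon)
    rw [DirectSum.decompose_mul, DirectSum.coe_mul_apply] at h1
    have h2 : (A ×ˢ B).filter (fun ij => ij.1 + ij.2 = a + b) = {(a, b)} := by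
      ext ⟨a', b'⟩
      rw [Finset.mem_filter, Finset.mem_product, Finset.mem_singleton]
      constructor
      · rintro ⟨⟨ha', hb'⟩, hab⟩
        obtain ⟨h3, h4⟩ := hu ha' hb' hab
        exact Prod.ext h3 h4
      · intro h3
        obtain ⟨rfl, rfl⟩ := Prod.mk.inj h3
        exact ⟨⟨ha, hb⟩, rfl⟩
    rw [h2, Finset.sum_singleton] at h1
    rcases mul_eq_zero.1 h1 with h3 | h3
    · rw [hA, DFinsupp.mem_support_iff] at ha
      exact ha (Subtype.ext h3)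
    · rw [hB, DFinsupp.mem_support_iff] at hb
      exact hb (Subtype.ext h3)
  have hcard : A.card = 1 := by
    by_contra hcon
    have h1 : 1 < A.card := by
      have := hAne.card_pos
      omega
    have h2 : 1 < A.card * B.card := lt_of_lt_of_le h1 (Nat.le_mul_of_pos_right _ hBne.card_pos)
    obtain ⟨p1, hp1, p2, hp2, hne12, hu1, hu2⟩ := TwoUniqueSums.uniqueAdd_of_one_lt_card h2
    rw [Finset.mem_product] at hp1 hp2
    have h3 := hcomp _ hp1.1 _ hp1.2 hu1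
    have h4 := hcomp _ hp2.1 _ hp2.2 hu2
    obtain ⟨h5, h6⟩ := hu1 hp2.1 hp2.2 (h4.trans h3.symm)
    exact hne12 (Prod.ext h5.symm h6.symm)
  obtain ⟨a, ha⟩ := Finset.card_eq_one.1 hcard
  refine ⟨a, ?_⟩
  have h1 := DirectSum.sum_support_decompose 𝒜 e
  rw [← hA, ha, Finset.sum_singleton] at h1
  rw [← h1]
  exact (DirectSum.decompose 𝒜 e a).2

/-- All common divisors of the sections of a movable class are units. -/
theorem mov_all [IsDomain R] {β : Cl ρ} (h : MovableF 𝒜 β) {e : R} (he : ∀ r ∈ 𝒜 β, e ∣ r) :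
    IsUnit e := by
  have h1 : ∃ r ∈ 𝒜 β, r ≠ 0 := by
    by_contra hcon
    push Not at hcon
    refine not_isUnit_zero (h 0 0 (Submodule.zero_mem _) fun r hr => ?_)
    rw [hcon r hr]
  obtain ⟨r, hr, hr0⟩ := h1
  obtain ⟨β', hβ'⟩ := homog_dvd hr hr0 (he r hr)
  exact h β' e hβ' he

omit [GradedAlgebra 𝒜] in
theorem mov_ne [Nontrivial R] {β : Cl ρ} (h : MovableF 𝒜 β) : ∃ r ∈ 𝒜 β, r ≠ 0 := by
  by_contra hcon
  push Not at hcon
  refine not_isUnit_zero (h 0 0 (Submodule.zero_mem _) fun r hr => ?_)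
  rw [hcon r hr]

theorem mov_zero : MovableF 𝒜 (0 : Cl ρ) := fun _ _ _ h =>
  isUnit_of_dvd_one (h 1 SetLike.GradedOne.one_mem)

theorem exists_prime_dvd [IsDomain R] (hU : UniqueFactorizationMonoid R) {e : R} (h0 : e ≠ 0)
    (hu : ¬ IsUnit e) : ∃ p, Prime p ∧ p ∣ e := by
  obtain ⟨p, hp, hpe⟩ := WfDvdMonoid.exists_irreducible_factor hu h0
  exact ⟨p, UniqueFactorizationMonoid.irreducible_iff_prime.1 hp, hpe⟩

theorem mov_add [IsDomain R] (hU : UniqueFactorizationMonoid R) {β β' : Cl ρ}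
    (h : MovableF 𝒜 β) (h' : MovableF 𝒜 β') : MovableF 𝒜 (β + β') := by
  intro γ e he hdiv
  by_contra hcon
  obtain ⟨r, hr, hr0⟩ := mov_ne h
  obtain ⟨s, hs, hs0⟩ := mov_ne h'
  have h0 : e ≠ 0 := by
    rintro rfl
    have h1 := hdiv _ (SetLike.mul_mem_graded hr hs)
    exact mul_ne_zero hr0 hs0 (zero_dvd_iff.1 h1)
  obtain ⟨p, hp, hpe⟩ := exists_prime_dvd hU h0 hcon
  by_cases hall : ∀ r ∈ 𝒜 β, p ∣ r
  · exact hp.not_unit (mov_all h hall)
  · push Not at hall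
    obtain ⟨r', hr', hpr⟩ := hall
    refine hp.not_unit (mov_all h' fun s' hs' => ?_)
    exact (hp.dvd_or_dvd (hpe.trans (hdiv _ (SetLike.mul_mem_graded hr' hs')))).resolve_left hpr

omit [GradedAlgebra 𝒜] in
theorem mov_induces {ψ : R ≃ₐ[ℂ] R} {σ : Cl ρ ≃+ Cl ρ} (hσ : Induces 𝒜 ψ σ)
    {τ : Cl ρ ≃+ Cl ρ} (hτ : Induces 𝒜 ψ⁻¹ τ) {β : Cl ρ} (h : MovableF 𝒜 β) :
    MovableF 𝒜 (σ β) := by
  intro γ e he hdiv
  have h1 : IsUnit (ψ⁻¹ e) := by
    refine h _ _ (hτ γ e he) fun r hr => ?_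
    obtain ⟨s, hs⟩ := hdiv _ (hσ β r hr)
    refine ⟨ψ⁻¹ s, ?_⟩
    rw [← map_mul, ← hs]
    change r = (ψ⁻¹ * ψ) r
    rw [inv_mul_cancel]
    rfl
  have h2 := h1.map ψ
  have h3 : ψ (ψ⁻¹ e) = e := by
    change (ψ * ψ⁻¹) e = e
    rw [mul_inv_cancel]
    rfl
  rwa [h3] at h2

end Pool.Agent.J4H47.MG
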