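import Pool.Agent.J4H47.MG.Fib

/-!
# The invariant part of the cones of `F`, for a system of classes
-/

set_option autoImplicit false

namespace Pool.Agent.J4H47.MG

open Finset Filter Topology
open Pool.Agent.W594.SYZ2 Pool.Agent.TH735.AQ Pool.Agent.X324.CF
open Pool.Agent.Y167 (cone cone_add cone_smul cone_le cone_mono cone_sum mem_cone_self
  zero_mem_cone cone_image cone_ind cone_of_scaled mem_cone_of_sum CData Cp)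
open Pool.Agent.J4H47.CG (real real_eq effConeF IsAction single_sum single_sum_int lin_ext ract
  ract_apply ract_rv reqv reqv_rv hullP hullP_mem hullP_map clos_add clos_smul clos_map ZL_span
  cp_cover cardr_pos)

variable {V : Type*} [NormedAddCommGroup V] [NormedSpace ℂ V]
  {ρ n : ℕ} {R : Type*} [CommRing R] [Algebra ℂ R] {𝒜 : Cl ρ → Submodule ℂ R}
  [GradedAlgebra 𝒜] {u : Cl ρ} {Ψ : Subgroup (R ≃ₐ[ℂ] R)} {P : Cl ρ → Prop} {Γ : Grp V R}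

/-- The cone conjecture for a system of classes. -/
structure HoldsP (𝒜 : Cl ρ → Submodule ℂ R) (Ψ : Subgroup (R ≃ₐ[ℂ] R)) (P : Cl ρ → Prop) {n : ℕ}
    (w : Fin n → Cl ρ) : Prop where
  mem : ∀ i, real (w i) ∈ KP P ∩ effConeF 𝒜
  cover : ∀ x ∈ KP P ∩ effConeF 𝒜, ∃ ψ ∈ Ψ, ∃ s, IsAction 𝒜 ψ s ∧
    ∃ c : Fin n → ℝ, (∀ i, 0 ≤ c i) ∧ s x = ∑ i, c i • real (w i)

/-- The cone conjecture for a system of classes, for the interior of the cone. -/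
structure HoldsI (𝒜 : Cl ρ → Submodule ℂ R) (Ψ : Subgroup (R ≃ₐ[ℂ] R)) (P : Cl ρ → Prop) {n : ℕ}
    (w : Fin n → Cl ρ) : Prop where
  mem : ∀ i, real (w i) ∈ KP P
  cover : ∀ x ∈ interior (KP P), ∃ ψ ∈ Ψ, ∃ s, IsAction 𝒜 ψ s ∧
    ∃ c : Fin n → ℝ, (∀ i, 0 ≤ c i) ∧ s x = ∑ i, c i • real (w i)

omit [GradedAlgebra 𝒜] in
theorem int_interior (D : Sys 𝒜 u Ψ P) {x : Fin ρ → ℝ} {t : ℝ} (ht : 0 < t)
    (hx : x - t • rv u ∈ KP P) : x ∈ interior (KP P) := by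
  obtain ⟨M, hM, h⟩ := real_ample D
  rw [mem_interior]
  refine ⟨Metric.ball x (t / M), fun y hy => ?_, Metric.isOpen_ball,
    Metric.mem_ball_self (by positivity)⟩
  rw [Metric.mem_ball, dist_comm, dist_eq_norm, lt_div_iff₀ hM] at hy
  have h1 := hull_add (h (x - y)) (hull_smul (sub_nonneg.2 hy.le) (u_mem D))
  have h2 := nefF_add hx (semi_nef h1)
  have h3 : x - t • rv u + ((‖x - y‖ * M) • rv u - (x - y) + (t - ‖x - y‖ * M) • rv u) = y := by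
    module
  rwa [h3] at h2

omit [GradedAlgebra 𝒜] in
theorem interior_sub {x : Fin ρ → ℝ} (b : Fin ρ → ℝ) (hx : x ∈ interior (KP P)) :
    ∃ t : ℝ, 0 < t ∧ x - t • b ∈ KP P := by
  rw [mem_interior_iff_mem_nhds, Metric.mem_nhds_iff] at hx
  obtain ⟨ε, hε, h⟩ := hx
  have hb : 0 < ‖b‖ + 1 := by positivity
  refine ⟨ε / (2 * (‖b‖ + 1)), by positivity, h ?_⟩
  rw [Metric.mem_ball, dist_eq_norm, sub_sub_cancel_left, norm_neg, norm_smul, Real.norm_eq_abs,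
    abs_of_pos (by positivity)]
  have h1 : ‖b‖ < ‖b‖ + 1 := lt_add_one _
  calc ε / (2 * (‖b‖ + 1)) * ‖b‖ ≤ ε / (2 * (‖b‖ + 1)) * (‖b‖ + 1) :=
        mul_le_mul_of_nonneg_left h1.le (by positivity)
    _ = ε / 2 := by field_simp
    _ < ε := by linarith

omit [GradedAlgebra 𝒜] in
theorem HoldsP.toI {w : Fin n → Cl ρ} (Hd : HoldsP 𝒜 Ψ P w) (D : Sys 𝒜 u Ψ P) :
    HoldsI 𝒜 Ψ P w where
  mem := fun i => (Hd.mem i).1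
  cover := fun x hx => by
    obtain ⟨t, ht, h⟩ := interior_sub (rv u) hx
    have h1 := int_mem' D ht h
    exact Hd.cover x ⟨semi_nef h1, semi_eff D h1⟩

/-- The elements of the finite group, as elements of `Ψ`. -/
def el (hΓ : gal Γ ≤ Ψ) (φ : gal Γ) : Ψ := Subgroup.inclusion hΓ φ


/-- The finite group of automorphisms of `F`. -/
noncomputable def Hg (D : Sys 𝒜 u Ψ P) (hΓ : gal Γ ≤ Ψ) : Subgroup (Gq D) :=
  ((mkq D).comp (Subgroup.inclusion hΓ)).range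

omit [GradedAlgebra 𝒜] in
theorem mem_Hg (D : Sys 𝒜 u Ψ P) (hΓ : gal Γ ≤ Ψ) (φ : gal Γ) :
    mkq D (el hΓ φ) ∈ Hg D hΓ := ⟨φ, rfl⟩

/-- The sum of the conjugates of a class. -/
noncomputable def nm (D : Sys 𝒜 u Ψ P) (hΓ : gal Γ ≤ Ψ) [Fintype (gal Γ)] (β : Cl ρ) : Cl ρ :=
  ∑ φ : gal Γ, sg D (el hΓ φ) β

theorem nm_inv (D : Sys 𝒜 u Ψ P) (hΓ : gal Γ ≤ Ψ) [Fintype (gal Γ)] (β : Cl ρ) :
    Inv 𝒜 Γ (nm D hΓ β) := by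
  intro γ hγ σ hσ
  have h1 : sg D (el hΓ ⟨γ.2, mem_gal hγ⟩) = σ := sg_eq D _ hσ
  rw [nm, map_sum]
  refine Fintype.sum_equiv (Equiv.mulLeft (⟨γ.2, mem_gal hγ⟩ : gal Γ)) _ _ fun φ => ?_
  rw [← h1, ← sg_mul]
  rfl

/-- The sum of the conjugates. -/
noncomputable def avg (D : Sys 𝒜 u Ψ P) (hΓ : gal Γ ≤ Ψ) [Fintype (gal Γ)] :
    (Fin ρ → ℝ) →ₗ[ℝ] (Fin ρ → ℝ) :=
  ∑ φ : gal Γ, (act D (el hΓ φ) : (Fin ρ → ℝ) →ₗ[ℝ] (Fin ρ → ℝ))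

theorem avg_apply (D : Sys 𝒜 u Ψ P) (hΓ : gal Γ ≤ Ψ) [Fintype (gal Γ)] (x : Fin ρ → ℝ) :
    avg D hΓ x = ∑ φ : gal Γ, act D (el hΓ φ) x := by
  rw [avg, LinearMap.sum_apply]
  rfl

theorem avg_rv (D : Sys 𝒜 u Ψ P) (hΓ : gal Γ ≤ Ψ) [Fintype (gal Γ)] (β : Cl ρ) :
    avg D hΓ (rv β) = rv (nm D hΓ β) := by
  rw [avg_apply, nm, rv_sum]
  exact Finset.sum_congr rfl fun φ _ => act_rv D _ _

theorem act_of_inv (D : Sys 𝒜 u Ψ P) (hΓ : gal Γ ≤ Ψ) {β : Cl ρ} (h : Inv 𝒜 Γ β)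
    (φ : gal Γ) : sg D (el hΓ φ) β = β := by
  obtain ⟨φ, γ, hγ, h1⟩ := φ
  refine h γ hγ _ ?_
  have h2 := sg_spec D (el hΓ ⟨φ, γ, hγ, h1⟩)
  have h3 : γ.2 = φ := h1
  rw [h3]
  exact h2

theorem act_Bs (D : Sys 𝒜 u Ψ P) (hΓ : gal Γ ≤ Ψ) {x : Fin ρ → ℝ} (hx : x ∈ Bs 𝒜 Γ)
    (φ : gal Γ) : act D (el hΓ φ) x = x := by
  induction hx using Submodule.span_induction with
  | mem x hx =>
    obtain ⟨β, hβ, rfl⟩ := hx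
    rw [act_rv, act_of_inv D hΓ hβ]
  | zero => rw [map_zero]
  | add a b _ _ ha hb => rw [map_add, ha, hb]
  | smul c a _ ha => rw [map_smul, ha]

theorem avg_mem (D : Sys 𝒜 u Ψ P) (hΓ : gal Γ ≤ Ψ) [Fintype (gal Γ)] (x : Fin ρ → ℝ) :
    avg D hΓ x ∈ Bs 𝒜 Γ := by
  rw [← single_sum x, map_sum]
  refine Submodule.sum_mem _ fun i _ => ?_
  rw [map_smul, avg_rv]
  exact Submodule.smul_mem _ _ (Submodule.subset_span ⟨_, nm_inv D hΓ _, rfl⟩)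

theorem avg_fix (D : Sys 𝒜 u Ψ P) (hΓ : gal Γ ≤ Ψ) [Fintype (gal Γ)] {x : Fin ρ → ℝ}
    (hx : ∀ φ : gal Γ, act D (el hΓ φ) x = x) : avg D hΓ x = (Fintype.card (gal Γ) : ℝ) • x := by
  rw [avg_apply, Finset.sum_congr rfl fun φ _ => hx φ, Finset.sum_const, Finset.card_univ,
    Nat.cast_smul_eq_nsmul]

theorem mem_Bs (D : Sys 𝒜 u Ψ P) (hΓ : gal Γ ≤ Ψ) [Fintype (gal Γ)] {x : Fin ρ → ℝ} :
    x ∈ Bs 𝒜 Γ ↔ ∀ φ : gal Γ, act D (el hΓ φ) x = x := by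
  refine ⟨fun h φ => act_Bs D hΓ h φ, fun h => ?_⟩
  have h1 := avg_mem D hΓ x
  rw [avg_fix D hΓ h] at h1
  have h2 := Submodule.smul_mem _ (Fintype.card (gal Γ) : ℝ)⁻¹ h1
  rwa [smul_smul, inv_mul_cancel₀ cardr_pos.ne', one_smul] at h2

theorem mem_Bs_H (D : Sys 𝒜 u Ψ P) (hΓ : gal Γ ≤ Ψ) [Fintype (gal Γ)] (x : Fin ρ → ℝ) :
    x ∈ Bs 𝒜 Γ ↔ ∀ h ∈ Hg D hΓ, rep D h x = x := by
  rw [mem_Bs D hΓ]
  constructor
  · rintro h _ ⟨φ, rfl⟩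
    exact h φ
  · intro h φ
    exact h _ (mem_Hg D hΓ φ)

/-- Integral vectors in the invariant part are invariant. -/
theorem inv_of_Bs (D : Sys 𝒜 u Ψ P) (hΓ : gal Γ ≤ Ψ) {β : Cl ρ} (h : rv β ∈ Bs 𝒜 Γ) :
    Inv 𝒜 Γ β := by
  intro γ hγ σ hσ
  have h1 : sg D (el hΓ ⟨γ.2, mem_gal hγ⟩) = σ := sg_eq D _ hσ
  have h2 := act_Bs D hΓ h ⟨γ.2, mem_gal hγ⟩
  rw [act_rv, h1] at h2
  exact rv_inj h2

/-- Passing to invariant classes. -/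
theorem hull_avg (D : Sys 𝒜 u Ψ P) (hΓ : gal Γ ≤ Ψ) [Fintype (gal Γ)] {Q : Cl ρ → Prop}
    (h0 : Q 0) (hadd : ∀ β β', Q β → Q β' → Q (β + β'))
    (hsg : ∀ (ψ : Ψ) β, Q β → Q (sg D ψ β)) {x : Fin ρ → ℝ} (hx : x ∈ Bs 𝒜 Γ)
    (hP : x ∈ hullP Q) : x ∈ hullP fun β => Inv 𝒜 Γ β ∧ Q β := by
  classical
  have h1 : avg D hΓ x ∈ hullP fun β => Inv 𝒜 Γ β ∧ Q β := by
    refine hullP_map (avg D hΓ) (fun β hβ => ?_) hP
    rw [avg_rv]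
    refine hullP_mem (P := fun β => Inv 𝒜 Γ β ∧ Q β) ⟨nm_inv D hΓ β, ?_⟩
    rw [nm]
    exact Finset.sum_induction _ Q (fun a b ha hb => hadd a b ha hb) h0 fun φ _ => hsg _ _ hβ
  rw [avg_fix D hΓ fun φ => act_Bs D hΓ hx φ] at h1
  have h2 := hull_smul (inv_nonneg.2 (cardr_pos (Γ := Γ)).le) h1
  rwa [smul_smul, inv_mul_cancel₀ cardr_pos.ne', one_smul] at h2

section Cover

variable {w : Fin n → Cl ρ}

/-- The covering of the invariant part. -/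
theorem fix_cover (D : Sys 𝒜 u Ψ P) (Hd : HoldsI 𝒜 Ψ P w) (hQ : IsQuotient 𝒜 u Γ)
    (hΓ : gal Γ ≤ Ψ) : ∃ (ξ : Bs 𝒜 Γ →ₗ[ℝ] ℝ) (Y : Finset (Bs 𝒜 Γ)) (c : ℝ) (y : Bs 𝒜 Γ),
      0 < c ∧ y.1 = c • rv u ∧
      CData (L2 𝒜 Γ) {b : Bs 𝒜 Γ | b.1 ∈ KP P} ξ y Y ∧
      ∃ F : Finset (Bs 𝒜 Γ), (∀ a ∈ F, a ∈ L2 𝒜 Γ ∧ a.1 ∈ KP P) ∧
        ∀ x : Bs 𝒜 Γ, (∃ t : ℝ, 0 < t ∧ x.1 - t • rv u ∈ KP P) →
          ∃ ψ : Ψ, (∀ φ : gal Γ, mkq D ψ * mkq D (el hΓ φ) = mkq D (el hΓ φ) * mkq D ψ) ∧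
            ∀ y : Bs 𝒜 Γ, y.1 = act D ψ x.1 → y ∈ cone F := by
  classical
  have := hQ.fin_gal
  have : Fintype (gal Γ) := Fintype.ofFinite _
  obtain ⟨ξ, Y, CD⟩ := fibre_data D
  have hfin : Finite (Hg D hΓ) := by
    rw [Hg]
    exact Set.finite_range _ |>.to_subtype
  have : Fintype (Hg D hΓ) := Fintype.ofFinite _
  have hgL : ∀ g, ∀ x ∈ ZL ρ, rep D g x ∈ ZL ρ := by
    rintro g x ⟨β, rfl⟩
    obtain ⟨ψ, rfl⟩ := mkq_surj D g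
    exact ⟨sg D ψ β, act_rv D ψ β⟩
  have hgN : ∀ g, ∀ x ∈ KP P, rep D g x ∈ KP P := by
    intro g x hx
    obtain ⟨ψ, rfl⟩ := mkq_surj D g
    exact act_nef D ψ hx
  have hfix := mem_Bs_H D hΓ
  let A : (Fin ρ → ℝ) →ₗ[ℝ] Bs 𝒜 Γ := LinearMap.codRestrict (Bs 𝒜 Γ)
    (∑ h : Hg D hΓ, (rep D h : (Fin ρ → ℝ) →ₗ[ℝ] (Fin ρ → ℝ))) (by
      intro x
      rw [hfix]
      intro h hh
      rw [LinearMap.sum_apply, map_sum]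
      refine Fintype.sum_equiv (Equiv.mulLeft (⟨h, hh⟩ : Hg D hΓ)) _ _ fun h' => ?_
      change rep D h (rep D h' x) = rep D (h * h') x
      rw [map_mul]
      rfl)
  have hA : ∀ x, (A x : Fin ρ → ℝ) = ∑ h : Hg D hΓ, rep D h x := by
    intro x
    rw [LinearMap.codRestrict_apply, LinearMap.sum_apply]
    rfl
  set N : ℝ := (Fintype.card (Hg D hΓ) : ℝ) with hN
  have hN0 : 0 < N := by
    rw [hN]
    exact_mod_cast Fintype.card_pos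
  have hA1 : ∀ x : Bs 𝒜 Γ, A (x : Fin ρ → ℝ) = N • x := by
    intro x
    apply Subtype.ext
    rw [hA]
    have h1 : ∀ h : Hg D hΓ, rep D h (x : Fin ρ → ℝ) = x := fun h => (hfix _).1 x.2 h h.2
    rw [Finset.sum_congr rfl fun h _ => h1 h, Finset.sum_const, Finset.card_univ,
      ← Nat.cast_smul_eq_nsmul ℝ]
    rfl
  have hAL : ∀ x ∈ ZL ρ, (A x : Fin ρ → ℝ) ∈ ZL ρ := by
    intro x hx
    rw [hA]
    exact AddSubgroup.sum_mem _ fun h _ => hgL _ _ hx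
  have hAN : ∀ x ∈ KP P, (A x : Fin ρ → ℝ) ∈ KP P := by
    intro x hx
    rw [hA]
    exact Finset.sum_induction _ (· ∈ KP P) (fun x y hx hy => nefF_add hx hy) nefF_zero
      fun h _ => hgN _ _ hx
  have hΛ : ∀ x ∈ L2 𝒜 Γ, (x : Fin ρ → ℝ) ∈ ZL ρ := by
    rintro x ⟨β, -, h1⟩
    exact ⟨β, h1⟩
  have hkΛ : ∀ x : Bs 𝒜 Γ, (x : Fin ρ → ℝ) ∈ ZL ρ → ((1 : ℕ) : ℝ) • x ∈ L2 𝒜 Γ := by
    rintro ⟨x, hx⟩ ⟨β, h1⟩
    rw [Nat.cast_one, one_smul]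
    have h2 : x = rv β := h1
    subst h2
    exact ⟨β, inv_of_Bs D hΓ hx, rfl⟩
  have D' := Pool.Agent.K3h69.KQ.cdata_fix CD (Bs 𝒜 Γ) A N hN0 hA1 hAL hAN (L2 𝒜 Γ) hΛ 1 one_pos hkΛ
  have hub : rv u ∈ Bs 𝒜 Γ := Submodule.subset_span ⟨u, hQ.inv, rfl⟩
  refine ⟨_, _, N, ((1 : ℕ) : ℝ) • A (rv u), hN0, ?_, D', ?_⟩
  · rw [Nat.cast_one, one_smul]
    exact congrArg Subtype.val (hA1 ⟨rv u, hub⟩)
  · let F₁ : Finset (Fin ρ → ℝ) := Finset.univ.image fun i => rv (w i)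
    have hF₁ : ∀ a ∈ F₁, a ∈ ZL ρ ∧ a ∈ KP P := by
      intro a ha
      obtain ⟨i, -, rfl⟩ := Finset.mem_image.1 ha
      exact ⟨⟨w i, rfl⟩, Hd.mem i⟩
    have hcov : ∀ x, (∃ t : ℝ, 0 < t ∧ x - t • rv u ∈ KP P) →
        ∃ g, rep D g x ∈ cone F₁ := by
      rintro x ⟨t, ht, hx⟩
      obtain ⟨ψ, hψ, s, hs, c, hc, h2⟩ := Hd.cover x (int_interior D ht hx)
      have h3 := (isAction_iff D ⟨ψ, hψ⟩).1 hs
      refine ⟨mkq D ⟨ψ, hψ⟩, ?_⟩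
      rw [rep_mk]
      have h4 : act D ⟨ψ, hψ⟩ x = s x := by rw [h3]; rfl
      rw [h4, h2]
      exact cone_sum _ _ fun i _ => cone_smul (mem_cone_self (Finset.mem_image_of_mem _
        (Finset.mem_univ i))) (hc i)
    obtain ⟨F', hF', hcovF⟩ := Pool.Agent.K3h69.KQ.cov_fix (rep D) CD (rep_ker D) hgL hgN F₁ hF₁
      hcov (Hg D hΓ) (Bs 𝒜 Γ) hfix A hA
    refine ⟨F', fun a ha => ⟨?_, (hF' a ha).2⟩, fun x hx => ?_⟩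
    · have h1 := hkΛ a (hF' a ha).1
      rwa [Nat.cast_one, one_smul] at h1
    · obtain ⟨g, hg, h1⟩ := hcovF x hx
      obtain ⟨ψ, rfl⟩ := mkq_surj D g
      exact ⟨ψ, fun φ => hg _ (mem_Hg D hΓ φ), fun y hy => h1 y hy⟩

/-- Rational nef classes of `F` are effective. -/
theorem rat_eff (D : Sys 𝒜 u Ψ P) (Hd : HoldsP 𝒜 Ψ P w) {β : Cl ρ}
    (h : rv β ∈ KP P) : rv β ∈ effConeF 𝒜 := by
  classical
  obtain ⟨ξ, Y, CD⟩ := fibre_data D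
  let F₁ : Finset (Fin ρ → ℝ) := Finset.univ.image fun i => rv (w i)
  have hF₁ : ∀ a ∈ F₁, a ∈ ZL ρ ∧ a ∈ KP P := by
    intro a ha
    obtain ⟨i, -, rfl⟩ := Finset.mem_image.1 ha
    exact ⟨⟨w i, rfl⟩, (Hd.mem i).1⟩
  have hcov : ∀ x, (∃ t : ℝ, 0 < t ∧ x - t • rv u ∈ KP P) →
      ∃ g ∈ (rep D).range, g x ∈ cone F₁ := by
    rintro x ⟨t, ht, hx⟩
    have h1 := int_mem' D ht hx
    obtain ⟨ψ, hψ, s, hs, c, hc, h2⟩ := Hd.cover x ⟨semi_nef h1, semi_eff D h1⟩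
    have h3 := (isAction_iff D ⟨ψ, hψ⟩).1 hs
    refine ⟨rep D (mkq D ⟨ψ, hψ⟩), ⟨_, rfl⟩, ?_⟩
    rw [rep_mk]
    have h4 : act D ⟨ψ, hψ⟩ x = s x := by rw [h3]; rfl
    rw [h4, h2]
    exact cone_sum _ _ fun i _ => cone_smul (mem_cone_self (Finset.mem_image_of_mem _
      (Finset.mem_univ i))) (hc i)
  obtain ⟨_, ⟨g, rfl⟩, h1⟩ := cp_cover CD (rep D).range (by
      rintro _ ⟨g, rfl⟩ x ⟨β, rfl⟩
      obtain ⟨ψ, rfl⟩ := mkq_surj D g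
      exact ⟨sg D ψ β, act_rv D ψ β⟩) (by
      rintro _ ⟨g, rfl⟩ x hx
      obtain ⟨ψ, rfl⟩ := mkq_surj D g
      exact act_nef D ψ hx) F₁ hF₁ hcov
    (x := rv β) ⟨{rv β}, fun a ha => by
      rw [Finset.mem_singleton] at ha
      rw [ha]
      exact ⟨⟨β, rfl⟩, h⟩, mem_cone_self (Finset.mem_singleton_self _)⟩
  obtain ⟨ψ, rfl⟩ := mkq_surj D g
  have h2 : act D ψ (rv β) ∈ effConeF 𝒜 := by
    refine cone_ind (p := fun x => x ∈ effConeF 𝒜) hull_zero (fun _ _ h1 h2 => hull_add h1 h2)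
      (fun _ _ ht h => hull_smul ht h) (fun a ha => ?_) h1
    obtain ⟨i, -, rfl⟩ := Finset.mem_image.1 ha
    exact (Hd.mem i).2
  have h3 := act_eff D ψ⁻¹ h2
  rwa [act_inv_apply] at h3

/-- Nef effective classes of `F` are combinations of integral nef classes. -/
theorem nefeff_rat (D : Sys 𝒜 u Ψ P) (Hd : HoldsP 𝒜 Ψ P w) {x : Fin ρ → ℝ}
    (hn : x ∈ KP P) (he : x ∈ effConeF 𝒜) :
    x ∈ hullP fun β => rv β ∈ KP P := by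
  obtain ⟨ψ, hψ, s, hs, c, hc, h2⟩ := Hd.cover x ⟨hn, he⟩
  have h3 := (isAction_iff D ⟨ψ, hψ⟩).1 hs
  have h4 : act D ⟨ψ, hψ⟩ x = ∑ i, c i • rv (w i) := by
    have h6 : act D ⟨ψ, hψ⟩ x = s x := by rw [h3]; rfl
    rw [h6, h2]
    rfl
  have h5 : x = act D (⟨ψ, hψ⟩ : Ψ)⁻¹ (∑ i, c i • rv (w i)) := by
    rw [← h4, act_inv_apply]
  rw [h5, map_sum]
  refine Finset.sum_induction _ (· ∈ hullP fun β => rv β ∈ KP P)
    (fun x y hx hy => hull_add hx hy) hull_zero fun i _ => ?_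
  rw [map_smul, act_rv]
  refine hull_smul (hc i) (hullP_mem (P := fun β => rv β ∈ KP P) ?_)
  rw [← act_rv]
  exact act_nef D _ (Hd.mem i).1

end Cover

end Pool.Agent.J4H47.MG
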