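import Pool.Agent.J4H47.MG.Main

/-!
# The system of movable classes
-/

set_option autoImplicit false

namespace Pool.Agent.J4H47.MG

open Finset Filter Topology
open Pool.Agent.W594.SYZ2 Pool.Agent.W594.SYZ2.TQ Pool.Agent.TH735.AQ Pool.Agent.X324.CF
open Pool.Agent.Y167 (cone cone_add cone_smul cone_le cone_mono cone_sum mem_cone_self
  zero_mem_cone cone_image cone_ind cone_of_scaled mem_cone_of_sum Rel Pol Cp CData)
open Pool.Agent.J4H47.CG (real real_eq effConeF IsAction hullP hullP_mem)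

variable {V E R : Type*} [NormedAddCommGroup V] [NormedSpace ℂ V]
  [NormedAddCommGroup E] [NormedSpace ℂ E] [CommRing R] [IsDomain R]
  [Algebra ℂ R] {ρ n : ℕ}
  {𝒜 : Cl ρ → Submodule ℂ R} [GradedAlgebra 𝒜] {Γ : Grp V R} {w : Fin n → Cl ρ}
  {u : Cl ρ} {Ψ : Subgroup (R ≃ₐ[ℂ] R)} {j : E →ₗ[ℂ] V}

theorem IsVariety.sys (D : IsVariety 𝒜 u Ψ) : Sys 𝒜 u Ψ (MovableF 𝒜) where
  sections := D.sections
  perm := D.perm
  discrete := D.discrete
  curve := D.curve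
  ample := D.ample
  zero := mov_zero
  add := fun _ _ h h' => mov_add D.ufd h h'
  act := fun ψ hψ σ hσ β h => by
    obtain ⟨τ, hτ⟩ := D.perm ψ⁻¹ (Ψ.inv_mem hψ)
    exact mov_induces hσ hτ h
  eff := fun β h => by
    obtain ⟨r, hr, hr0⟩ := mov_ne h
    exact ⟨1, one_pos, r, by rwa [one_smul], hr0⟩

omit [IsDomain R] [GradedAlgebra 𝒜] in
theorem HoldsM.holds {w : Fin n → Cl ρ} (h : HoldsM 𝒜 Ψ w) : HoldsP 𝒜 Ψ (MovableF 𝒜) w :=
  ⟨h.mem, h.cover⟩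

omit [IsDomain R] [GradedAlgebra 𝒜] in
theorem HoldsBig.holds {w : Fin n → Cl ρ} (h : HoldsBig 𝒜 Ψ w) : HoldsI 𝒜 Ψ (MovableF 𝒜) w :=
  ⟨h.mem, h.cover⟩

theorem dvd_sub {p : R} {φ : R ≃ₐ[ℂ] R} {β : Cl ρ} :
    ∃ S : Submodule ℂ (𝒜 β), ∀ r : 𝒜 β, r ∈ S ↔ p ∣ φ r.1 :=
  ⟨{ carrier := {r | p ∣ φ r.1}
     add_mem' := fun {a b} ha hb => by
       change p ∣ φ (a.1 + b.1)
       rw [map_add]
       exact dvd_add ha hb
     zero_mem' := by
       change p ∣ φ 0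
       rw [map_zero]
       exact dvd_zero p
     smul_mem' := fun c a ha => by
       change p ∣ φ (c • a.1)
       rw [map_smul, Algebra.smul_def]
       exact Dvd.dvd.mul_left ha _ }, fun _ => Iff.rfl⟩

/-- The norms of the sections of a movable class have no common divisor. -/
theorem unit_nrm (hU : UniqueFactorizationMonoid R) {K : Subgroup (R ≃ₐ[ℂ] R)} [Fintype K]
    {β : Cl ρ} (h : MovableF 𝒜 β) {e : R} (he : ∀ r ∈ 𝒜 β, e ∣ nrm K r) : IsUnit e := by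
  classical
  by_contra hcon
  obtain ⟨r₀, hr₀, hr₀0⟩ := mov_ne h
  have h0 : e ≠ 0 := by
    rintro rfl
    exact nrm_ne_zero hr₀0 (zero_dvd_iff.1 (he r₀ hr₀))
  obtain ⟨p, hp, hpe⟩ := exists_prime_dvd hU h0 hcon
  choose S hS using fun φ : K => dvd_sub (𝒜 := 𝒜) (p := p) (φ := φ.1) (β := β)
  by_cases hall : ∀ φ : K, S φ ≠ ⊤
  · obtain ⟨r, hr⟩ := avoidC (E := 𝒜 β) (Finset.univ : Finset K) S fun φ _ => hall φ
    have h1 : p ∣ nrm K r.1 := hpe.trans (he r.1 r.2)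
    rw [nrm] at h1
    obtain ⟨φ, hφ, h2⟩ := (Prime.dvd_finsetProd_iff hp _).1 h1
    exact hr φ hφ ((hS φ r).2 h2)
  · push Not at hall
    obtain ⟨φ, hφ⟩ := hall
    have h1 : ∀ r ∈ 𝒜 β, (φ.1⁻¹ p) ∣ r := by
      intro r hr
      have h2 : p ∣ φ.1 r := (hS φ ⟨r, hr⟩).1 (by rw [hφ]; trivial)
      obtain ⟨s, hs⟩ := h2
      refine ⟨φ.1⁻¹ s, ?_⟩
      rw [← map_mul, ← hs]
      change r = (φ.1⁻¹ * φ.1) r
      rw [inv_mul_cancel]
      rfl
    have h2 := mov_all h h1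
    have h3 := h2.map φ.1
    have h4 : φ.1 (φ.1⁻¹ p) = p := by
      change (φ.1 * φ.1⁻¹) p = p
      rw [mul_inv_cancel]
      rfl
    rw [h4] at h3
    exact hp.not_unit h3

theorem good_mov [FiniteDimensional ℂ V] (D : IsVariety 𝒜 u Ψ) (hQ : IsQuotient 𝒜 u Γ) :
    Good (MovableF 𝒜) (movable 𝒜 Γ j) where
  sub := by
    rintro a ⟨𝓛, hc, hm⟩
    have h1 : ∃ f, 𝓛.IsSection f ∧ ∃ v, f v ≠ 0 := by
      by_contra hcon
      push Not at hcon
      have h2 := hm 0 (fun _ => 0) (fun _ => Submodule.zero_mem _) (holo_const 0)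
        (fun f hf v => by rw [hcon f hf v]) 0
      exact not_isUnit_zero h2
    obtain ⟨f, hf, h0⟩ := h1
    refine ⟨effective_form hQ ⟨𝓛, f, hc, hf, h0⟩, ?_⟩
    have h3 : (val a).2 = rv 𝓛.deg := funext hc.2
    rw [h3]
    refine subset_closure (hullP_mem (P := MovableF 𝒜) fun β' e he hdiv => ?_)
    exact hm β' (fun _ => e) (fun _ => he) (holo_const e)
      (fun f hf v => hdiv _ (hf.mem v)) 0
  bpf := fun _ hs _ ha => bpf_movable hs ha
  deg := by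
    classical
    intro β hβ hm
    have := hQ.fin_gal
    have : Fintype (gal Γ) := Fintype.ofFinite _
    obtain ⟨a, ha1, ha2⟩ := exists_degclass (j := j) D.sys.base hQ hβ 1
    refine ⟨Nat.card (gal Γ) * 1, Nat.mul_pos Nat.card_pos one_pos, a, ⟨⟨_, ha1, ?_⟩, ?_⟩, ha2⟩
    · intro β' E hE _ hdiv v
      refine unit_nrm D.ufd (K := gal Γ) hm fun r hr => ?_
      exact hdiv _ (ofDeg_section (D := D.sys.base) (hQ := hQ) (β := 1 • β) (hβ := hβ.nsmul 1)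
        (r := r) (by rwa [one_smul])) v
    · obtain ⟨r, hr, hr0⟩ := mov_ne hm
      exact ⟨_, _, ha1, ofDeg_section (by rwa [one_smul]), 0, nrm_ne_zero hr0⟩

end Pool.Agent.J4H47.MG
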