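import Pool.Agent.J4H47.MG.Mov

/-!
# The movable cone conjecture for products
-/

set_option autoImplicit false

namespace Pool.Agent.J4H47.MG

open Finset Filter Topology
open Pool.Agent.W594.SYZ2 Pool.Agent.TH735.AQ Pool.Agent.X324.CF
open Pool.Agent.J4H47.CG (real real_eq effConeF IsAction hullP hullP_mem lin_ext single_sum_int)

section Ext

variable {a b c : ℕ}

/-- The real extension of a homomorphism. -/
noncomputable def rext (f : Cl a →+ Cl b) : (Fin a → ℝ) →ₗ[ℝ] (Fin b → ℝ) :=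
  ∑ i, (LinearMap.proj i : (Fin a → ℝ) →ₗ[ℝ] ℝ).smulRight (rv (f (Pi.single i 1)))

theorem rext_apply (f : Cl a →+ Cl b) (x : Fin a → ℝ) :
    rext f x = ∑ i, x i • rv (f (Pi.single i 1)) := by
  rw [rext, LinearMap.sum_apply]
  rfl

theorem rext_rv (f : Cl a →+ Cl b) (β : Cl a) : rext f (rv β) = rv (f β) := by
  rw [rext_apply]
  conv_rhs => rw [← single_sum_int β, map_sum, rv_sum]
  refine Finset.sum_congr rfl fun i _ => ?_
  rw [map_zsmul, rv_zsmul]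
  rfl

/-- Mapping of cones between different spaces. -/
theorem hull_map' {P : Cl a → Prop} {Q : Cl b → Prop} (s : (Fin a → ℝ) →ₗ[ℝ] (Fin b → ℝ))
    (h : ∀ β, P β → s (rv β) ∈ hullP Q) {x : Fin a → ℝ} (hx : x ∈ hullP P) : s x ∈ hullP Q := by
  refine hull_ind (p := fun x => s x ∈ hullP Q) ?_ ?_ ?_ ?_ hx
  · rw [map_zero]; exact hull_zero
  · intro a b h1 h2
    rw [map_add]; exact hull_add h1 h2
  · intro t a ht h1
    rw [map_smul]; exact hull_smul ht h1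
  · rintro a ⟨β, hβ, rfl⟩
    exact h β hβ

theorem clos_map' {P : Cl a → Prop} {Q : Cl b → Prop} (s : (Fin a → ℝ) →ₗ[ℝ] (Fin b → ℝ))
    (h : ∀ β, P β → s (rv β) ∈ hullP Q) {x : Fin a → ℝ} (hx : x ∈ closure (hullP P)) :
    s x ∈ closure (hullP Q) :=
  map_mem_closure (LinearMap.continuous_of_finiteDimensional s) hx fun _ hy => hull_map' s h hy

end Ext

variable {ρ k : ℕ} {R : Type*} [CommRing R] [IsDomain R] [Algebra ℂ R]
  {𝒜 : Cl ρ → Submodule ℂ R} [GradedAlgebra 𝒜]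
  {ρ' : Fin k → ℕ} {R' : Fin k → Type*} [∀ i, CommRing (R' i)] [∀ i, IsDomain (R' i)]
  [∀ i, Algebra ℂ (R' i)]
  {ℬ : ∀ i, Cl (ρ' i) → Submodule ℂ (R' i)} [∀ i, GradedAlgebra (ℬ i)]
  {p : ∀ i, R' i →ₐ[ℂ] R} {d : Cl ρ ≃+ ∀ i, Cl (ρ' i)}

/-- The class of `F` given by a class of `F_i`. -/
def emb (d : Cl ρ ≃+ ∀ i, Cl (ρ' i)) (i : Fin k) : Cl (ρ' i) →+ Cl ρ :=
  d.symm.toAddMonoidHom.comp (AddMonoidHom.single (fun i => Cl (ρ' i)) i)

/-- The component. -/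
def prj (d : Cl ρ ≃+ ∀ i, Cl (ρ' i)) (i : Fin k) : Cl ρ →+ Cl (ρ' i) :=
  (Pi.evalAddMonoidHom (fun i => Cl (ρ' i)) i).comp d.toAddMonoidHom

theorem prj_apply (i : Fin k) (β : Cl ρ) : prj d i β = d β i := rfl

theorem d_emb (i : Fin k) (β : Cl (ρ' i)) : d (emb d i β) = Pi.single i β :=
  d.apply_symm_apply _

theorem sum_emb (β : Cl ρ) : ∑ i, emb d i (d β i) = β := by
  apply d.injective
  rw [map_sum]
  have h1 : ∀ i ∈ Finset.univ, d (emb d i (d β i)) = Pi.single i (d β i) := fun i _ => d_emb i _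
  rw [Finset.sum_congr rfl h1]
  exact Finset.univ_sum_single (d β)

theorem eq_emb {β : Cl ρ} {i : Fin k} (h : ∀ l, l ≠ i → d β l = 0) : β = emb d i (d β i) := by
  apply d.injective
  rw [d_emb]
  funext l
  by_cases hl : l = i
  · subst hl
    rw [Pi.single_eq_same]
  · rw [Pi.single_eq_of_ne hl, h l hl]

section Pieces

omit [IsDomain R] [GradedAlgebra 𝒜] [∀ i, IsDomain (R' i)] in
theorem mem_emb (h : IsProduct 𝒜 ℬ p d) {i : Fin k} {β : Cl (ρ' i)} {r : R' i} (hr : r ∈ ℬ i β) :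
    p i r ∈ 𝒜 (emb d i β) := by
  classical
  rw [h.span]
  refine Submodule.subset_span ⟨Function.update (fun _ => 1) i r, fun l => ?_, ?_⟩
  · rw [d_emb]
    by_cases hl : l = i
    · subst hl
      rw [Function.update_self, Pi.single_eq_same]
      exact hr
    · rw [Function.update_of_ne hl, Pi.single_eq_of_ne hl]
      exact SetLike.GradedOne.one_mem
  · rw [Finset.prod_eq_single i]
    · rw [Function.update_self]
    · intro l _ hl
      rw [Function.update_of_ne hl, map_one]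
    · intro hi
      exact absurd (Finset.mem_univ i) hi

omit [IsDomain R] [GradedAlgebra 𝒜] [∀ i, IsDomain (R' i)] [∀ i, GradedAlgebra (ℬ i)] in
theorem exists_emb (h : IsProduct 𝒜 ℬ p d) {i : Fin k} {β : Cl (ρ' i)} {r : R}
    (hr : r ∈ 𝒜 (emb d i β)) : ∃ s ∈ ℬ i β, p i s = r := by
  classical
  rw [h.span] at hr
  have h1 : Submodule.span ℂ {r | ∃ f : ∀ l, R' l, (∀ l, f l ∈ ℬ l (d (emb d i β) l)) ∧
      r = ∏ l, p l (f l)} ≤ (ℬ i β).map (p i).toLinearMap := by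
    rw [Submodule.span_le]
    rintro _ ⟨f, hf, rfl⟩
    have hi : f i ∈ ℬ i β := by
      have h2 := hf i
      rwa [d_emb, Pi.single_eq_same] at h2
    have hc : ∀ l, ∃ c : ℂ, l ≠ i → f l = algebraMap ℂ (R' l) c := by
      intro l
      by_cases hl : l = i
      · exact ⟨0, fun h => absurd hl h⟩
      · have h2 := hf l
        rw [d_emb, Pi.single_eq_of_ne hl] at h2
        obtain ⟨c, hc⟩ := h.const l _ h2
        exact ⟨c, fun _ => hc⟩
    choose c hc using hc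
    refine ⟨(∏ l ∈ Finset.univ.erase i, c l) • f i, (ℬ i β).smul_mem _ hi, ?_⟩
    change p i _ = _
    rw [map_smul, ← Finset.mul_prod_erase _ _ (Finset.mem_univ i), Algebra.smul_def, map_prod,
      mul_comm]
    congr 1
    refine Finset.prod_congr rfl fun l hl => ?_
    rw [hc l (Finset.ne_of_mem_erase hl), AlgHom.commutes]
  obtain ⟨s, hs, hsr⟩ := h1 hr
  exact ⟨s, hs, hsr⟩

omit [GradedAlgebra 𝒜] [∀ i, IsDomain (R' i)] [∀ i, GradedAlgebra (ℬ i)] in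
/-- Effective classes. -/
theorem eff_iff (h : IsProduct 𝒜 ℬ p d) (β : Cl ρ) :
    (∃ r ∈ 𝒜 β, r ≠ 0) ↔ ∀ i, ∃ r ∈ ℬ i (d β i), r ≠ 0 := by
  constructor
  · rintro ⟨r, hr, hr0⟩ i
    by_contra hcon
    push Not at hcon
    apply hr0
    rw [h.span] at hr
    have h1 : Submodule.span ℂ {r | ∃ f : ∀ l, R' l, (∀ l, f l ∈ ℬ l (d β l)) ∧
        r = ∏ l, p l (f l)} ≤ ⊥ := by
      rw [Submodule.span_le]
      rintro _ ⟨f, hf, rfl⟩
      change ∏ l, p l (f l) = 0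
      exact Finset.prod_eq_zero (Finset.mem_univ i) (by rw [hcon _ (hf i), map_zero])
    exact h1 hr
  · intro h1
    choose r hr hr0 using h1
    refine ⟨∏ l, p l (r l), ?_, ?_⟩
    · rw [h.span]
      exact Submodule.subset_span ⟨r, hr, rfl⟩
    · refine Finset.prod_ne_zero_iff.2 fun l _ => ?_
      rw [Ne, map_eq_zero_iff _ (h.inj l)]
      exact hr0 l

omit [IsDomain R] [GradedAlgebra 𝒜] in
/-- Effective classes with effective negative vanish. -/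
theorem salient (h : IsProduct 𝒜 ℬ p d) {i : Fin k} {β β' : Cl (ρ' i)} (h0 : β + β' = 0)
    (h1 : ∃ r ∈ ℬ i β, r ≠ 0) (h2 : ∃ r ∈ ℬ i β', r ≠ 0) : β = 0 := by
  obtain ⟨r, hr, hr0⟩ := h1
  obtain ⟨s, hs, hs0⟩ := h2
  have h3 := SetLike.mul_mem_graded hr hs
  rw [h0] at h3
  obtain ⟨c, hc⟩ := h.const i _ h3
  have hc0 : c ≠ 0 := by
    rintro rfl
    rw [map_zero] at hc
    exact mul_ne_zero hr0 hs0 hc
  have hu : IsUnit (r * s) := by
    rw [hc]
    exact (IsUnit.mk0 c hc0).map (algebraMap ℂ (R' i))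
  exact h.unit i β r hr (isUnit_of_mul_isUnit_left hu)

/-- The degree of a quotient. -/
theorem quot_deg {β γ : Cl ρ} {r e s : R} (hr : r ∈ 𝒜 β) (h0 : r ≠ 0) (he : e ∈ 𝒜 γ)
    (h : r = e * s) : s ∈ 𝒜 (β - γ) := by
  have hs0 : s ≠ 0 := by
    rintro rfl
    exact h0 (by rw [h, mul_zero])
  obtain ⟨δ, hδ⟩ := homog_dvd hr h0 (Dvd.intro_left e h.symm)
  have h1 := SetLike.mul_mem_graded he hδ
  rw [← h] at h1
  have h2 := DirectSum.degree_eq_of_mem_mem 𝒜 hr h1 h0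
  have h3 : β - γ = δ := by rw [h2]; abel
  rwa [h3]

/-- The components of a movable class are movable. -/
theorem mov_prj (h : IsProduct 𝒜 ℬ p d) {β : Cl ρ} (hm : MovableF 𝒜 β) (i : Fin k) :
    MovableF (ℬ i) (d β i) := by
  intro γ e he hdiv
  have h1 : IsUnit (p i e) := by
    refine hm _ _ (mem_emb h he) fun r hr => ?_
    rw [h.span] at hr
    induction hr using Submodule.span_induction with
    | mem r hr =>
      obtain ⟨f, hf, rfl⟩ := hr
      obtain ⟨s, hs⟩ := hdiv _ (hf i)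
      refine Dvd.dvd.trans ⟨p i s, ?_⟩ (Finset.dvd_prod_of_mem _ (Finset.mem_univ i))
      rw [hs, map_mul]
    | zero => exact dvd_zero _
    | add a b _ _ ha hb => exact dvd_add ha hb
    | smul c a _ ha =>
      rw [Algebra.smul_def]
      exact Dvd.dvd.mul_left ha _
  obtain ⟨s, hs⟩ := h1.exists_right_inv
  have h2 : s ∈ 𝒜 (0 - emb d i γ) :=
    quot_deg SetLike.GradedOne.one_mem one_ne_zero (mem_emb h he) hs.symm
  have h3 : (0 : Cl ρ) - emb d i γ = emb d i (-γ) := by rw [map_neg, zero_sub]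
  rw [h3] at h2
  obtain ⟨s', -, hs'⟩ := exists_emb h h2
  rw [← hs', ← map_mul] at hs
  have h4 : e * s' = 1 := h.inj i (by rw [hs, map_one])
  exact IsUnit.of_mul_eq_one _ h4

/-- The pullback of a movable class is movable. -/
theorem mov_emb (h : IsProduct 𝒜 ℬ p d) {i : Fin k} {β : Cl (ρ' i)} (hm : MovableF (ℬ i) β) :
    MovableF 𝒜 (emb d i β) := by
  intro γ e he hdiv
  obtain ⟨r₀, hr₀, hr₀0⟩ := mov_ne hm
  have h0 : p i r₀ ≠ 0 := by rwa [Ne, map_eq_zero_iff _ (h.inj i)]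
  obtain ⟨s₀, hs₀⟩ := hdiv _ (mem_emb h hr₀)
  have hs₀m := quot_deg (mem_emb h hr₀) h0 he hs₀
  have he0 : e ≠ 0 := by
    rintro rfl
    exact h0 (by rw [hs₀, zero_mul])
  have hs₀0 : s₀ ≠ 0 := by
    rintro rfl
    exact h0 (by rw [hs₀, mul_zero])
  have heff := (eff_iff h γ).1 ⟨e, he, he0⟩
  have heff' := (eff_iff h _).1 ⟨s₀, hs₀m, hs₀0⟩
  have hγ : ∀ l, l ≠ i → d γ l = 0 := by
    intro l hl
    refine salient h ?_ (heff l) (heff' l)
    rw [map_sub, d_emb, Pi.sub_apply, Pi.single_eq_of_ne hl]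
    abel
  have hγ' := eq_emb hγ
  have he2 := he
  rw [hγ'] at he2
  obtain ⟨e', he', hee⟩ := exists_emb h he2
  have h1 : IsUnit e' := by
    refine hm _ e' he' fun r hr => ?_
    by_cases hr0 : r = 0
    · rw [hr0]
      exact dvd_zero _
    · obtain ⟨s, hs⟩ := hdiv _ (mem_emb h hr)
      have h2 : p i r ≠ 0 := by rwa [Ne, map_eq_zero_iff _ (h.inj i)]
      have hsm := quot_deg (mem_emb h hr) h2 he hs
      have h3 : emb d i β - γ = emb d i (β - d γ i) := by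
        rw [map_sub, ← hγ']
      rw [h3] at hsm
      obtain ⟨s', -, hs'⟩ := exists_emb h hsm
      refine ⟨s', h.inj i ?_⟩
      rw [map_mul, hee, hs', hs]
  rw [← hee]
  exact h1.map (p i)

end Pieces

section Cones

omit [IsDomain R] [GradedAlgebra 𝒜] [∀ i, IsDomain (R' i)] [∀ i, GradedAlgebra (ℬ i)] in
theorem prj_emb_sum (x : Fin ρ → ℝ) : ∑ i, rext (emb d i) (rext (prj d i) x) = x := by
  have h1 : (∑ i, rext (emb d i) ∘ₗ rext (prj d i)) = (LinearMap.id : (Fin ρ → ℝ) →ₗ[ℝ] _) := by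
    refine lin_ext fun β => ?_
    rw [LinearMap.sum_apply, LinearMap.id_apply]
    have h2 : ∀ i ∈ Finset.univ, (rext (emb d i) ∘ₗ rext (prj d i)) (rv β)
        = rv (emb d i (d β i)) := by
      intro i _
      rw [LinearMap.comp_apply, rext_rv, rext_rv]
      rfl
    rw [Finset.sum_congr rfl h2, ← rv_sum, sum_emb]
  have h2 := LinearMap.congr_fun h1 x
  rw [LinearMap.sum_apply] at h2
  exact h2

theorem mov_cone_prj (h : IsProduct 𝒜 ℬ p d) (i : Fin k) {x : Fin ρ → ℝ}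
    (hx : x ∈ movConeF 𝒜) : rext (prj d i) x ∈ movConeF (ℬ i) :=
  clos_map' (P := MovableF 𝒜) (Q := MovableF (ℬ i)) (rext (prj d i)) (fun β hβ => by
    rw [rext_rv]
    exact hullP_mem (mov_prj h hβ i)) hx

omit [GradedAlgebra 𝒜] [∀ i, IsDomain (R' i)] [∀ i, GradedAlgebra (ℬ i)] in
theorem eff_cone_prj (h : IsProduct 𝒜 ℬ p d) (i : Fin k) {x : Fin ρ → ℝ}
    (hx : x ∈ effConeF 𝒜) : rext (prj d i) x ∈ effConeF (ℬ i) :=
  hull_map' (P := fun β => ∃ r ∈ 𝒜 β, r ≠ 0) (Q := fun β => ∃ r ∈ ℬ i β, r ≠ 0)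
    (rext (prj d i)) (fun β hβ => by
    rw [rext_rv]
    exact hullP_mem (P := fun β => ∃ r ∈ ℬ i β, r ≠ 0) ((eff_iff h β).1 hβ i)) hx

theorem mov_cone_emb (h : IsProduct 𝒜 ℬ p d) (i : Fin k) {x : Fin (ρ' i) → ℝ}
    (hx : x ∈ movConeF (ℬ i)) : rext (emb d i) x ∈ movConeF 𝒜 :=
  clos_map' (P := MovableF (ℬ i)) (Q := MovableF 𝒜) (rext (emb d i)) (fun β hβ => by
    rw [rext_rv]
    exact hullP_mem (mov_emb h hβ)) hx

omit [IsDomain R] [GradedAlgebra 𝒜] [∀ i, IsDomain (R' i)] in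
theorem eff_cone_emb (h : IsProduct 𝒜 ℬ p d) (i : Fin k) {x : Fin (ρ' i) → ℝ}
    (hx : x ∈ effConeF (ℬ i)) : rext (emb d i) x ∈ effConeF 𝒜 :=
  hull_map' (P := fun β => ∃ r ∈ ℬ i β, r ≠ 0) (Q := fun β => ∃ r ∈ 𝒜 β, r ≠ 0)
    (rext (emb d i)) (fun β hβ => by
    rw [rext_rv]
    obtain ⟨r, hr, hr0⟩ := hβ
    exact hullP_mem (P := fun β => ∃ r ∈ 𝒜 β, r ≠ 0)
      ⟨p i r, mem_emb h hr, by rwa [Ne, map_eq_zero_iff _ (h.inj i)]⟩) hx

end Cones

section Action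

variable {u : Cl ρ} {Ψ : Subgroup (R ≃ₐ[ℂ] R)}

/-- Every class of `F_l` is a difference of effective classes. -/
theorem gens_factor (D : IsVariety 𝒜 u Ψ) (h : IsProduct 𝒜 ℬ p d) (l : Fin k)
    (H : AddSubgroup (Cl (ρ' l))) (hH : ∀ β, (∃ r ∈ ℬ l β, r ≠ 0) → β ∈ H) : H = ⊤ := by
  rw [eq_top_iff]
  intro β _
  obtain ⟨m, h1, h2⟩ := D.sections (emb d l β)
  have h3 := hH _ ((eff_iff h _).1 h1 l)
  have h4 := hH _ ((eff_iff h _).1 h2 l)
  have h5 := H.sub_mem h3 h4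
  have h6 : d (emb d l β + m • u) l - d (m • u) l = β := by
    rw [map_add]
    change d (emb d l β) l + d (m • u) l - d (m • u) l = β
    rw [d_emb, Pi.single_eq_same, add_sub_cancel_right]
  rwa [h6] at h5

/-- The action of the lift of an automorphism of a factor. -/
theorem lift_action (D : IsVariety 𝒜 u Ψ) (h : IsProduct 𝒜 ℬ p d) {i : Fin k}
    {ψ : R' i ≃ₐ[ℂ] R' i} {s : (Fin (ρ' i) → ℝ) →ₗ[ℝ] (Fin (ρ' i) → ℝ)}
    (hs : IsAction (ℬ i) ψ s) {φ : R ≃ₐ[ℂ] R} (hφ : φ ∈ Ψ)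
    (h1 : ∀ r, φ (p i r) = p i (ψ r)) (h2 : ∀ l, l ≠ i → ∀ r, φ (p l r) = p l r) :
    ∃ S, IsAction 𝒜 φ S ∧ (∀ y, S (rext (emb d i) y) = rext (emb d i) (s y)) ∧
      ∀ l, l ≠ i → ∀ y, S (rext (emb d l) y) = rext (emb d l) y := by
  obtain ⟨σ, hσ⟩ := D.perm φ hφ
  obtain ⟨τ, hτ, hsτ⟩ := hs
  have hi : ∀ β, σ (emb d i β) = emb d i (τ β) := by
    have h3 : ((σ.toAddMonoidHom).comp (emb d i)).eqLocus ((emb d i).comp τ.toAddMonoidHom)
        = ⊤ := by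
      refine gens_factor D h i _ ?_
      rintro β ⟨r, hr, hr0⟩
      have h4 := hσ _ _ (mem_emb h hr)
      rw [h1] at h4
      refine DirectSum.degree_eq_of_mem_mem 𝒜 h4 (mem_emb h (hτ β r hr)) ?_
      rw [Ne, map_eq_zero_iff _ (h.inj i), map_eq_zero_iff _ ψ.injective]
      exact hr0
    intro β
    have h4 : β ∈ ((σ.toAddMonoidHom).comp (emb d i)).eqLocus
        ((emb d i).comp τ.toAddMonoidHom) := by rw [h3]; trivial
    exact h4
  have hl : ∀ l, l ≠ i → ∀ β, σ (emb d l β) = emb d l β := by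
    intro l hl
    have h3 : ((σ.toAddMonoidHom).comp (emb d l)).eqLocus (emb d l) = ⊤ := by
      refine gens_factor D h l _ ?_
      rintro β ⟨r, hr, hr0⟩
      have h4 := hσ _ _ (mem_emb h hr)
      rw [h2 l hl] at h4
      refine DirectSum.degree_eq_of_mem_mem 𝒜 h4 (mem_emb h hr) ?_
      rw [Ne, map_eq_zero_iff _ (h.inj l)]
      exact hr0
    intro β
    have h4 : β ∈ ((σ.toAddMonoidHom).comp (emb d l)).eqLocus (emb d l) := by rw [h3]; trivial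
    exact h4
  refine ⟨rext σ.toAddMonoidHom, ⟨σ, hσ, fun β => rext_rv _ β⟩, fun y => ?_, fun l hli y => ?_⟩
  · have h3 : rext σ.toAddMonoidHom ∘ₗ rext (emb d i) = rext (emb d i) ∘ₗ s := by
      refine lin_ext fun β => ?_
      rw [LinearMap.comp_apply, LinearMap.comp_apply, rext_rv, rext_rv]
      have h4 : s (rv β) = rv (τ β) := hsτ β
      rw [h4, rext_rv]
      exact congrArg rv (hi β)
    exact LinearMap.congr_fun h3 y
  · have h3 : rext σ.toAddMonoidHom ∘ₗ rext (emb d l) = rext (emb d l) := by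
      refine lin_ext fun β => ?_
      rw [LinearMap.comp_apply, rext_rv, rext_rv]
      exact congrArg rv (hl l hli β)
    exact LinearMap.congr_fun h3 y

/-- The action of products. -/
theorem prod_action (D : IsVariety 𝒜 u Ψ) (h : IsProduct 𝒜 ℬ p d)
    {Ψ' : ∀ i, Subgroup (R' i ≃ₐ[ℂ] R' i)} (hc : ContainsProduct p Ψ' Ψ)
    (ψ : ∀ i, R' i ≃ₐ[ℂ] R' i) (hψ : ∀ i, ψ i ∈ Ψ' i)
    (s : ∀ i, (Fin (ρ' i) → ℝ) →ₗ[ℝ] (Fin (ρ' i) → ℝ)) (hs : ∀ i, IsAction (ℬ i) (ψ i) (s i))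
    (T : Finset (Fin k)) : ∃ φ ∈ Ψ, ∃ S, IsAction 𝒜 φ S ∧
      (∀ l ∈ T, ∀ y, S (rext (emb d l) y) = rext (emb d l) (s l y)) ∧
      ∀ l, l ∉ T → ∀ y, S (rext (emb d l) y) = rext (emb d l) y := by
  classical
  induction T using Finset.induction_on with
  | empty =>
    exact ⟨1, Ψ.one_mem, LinearMap.id, ⟨AddEquiv.refl _, fun β r hr => hr, fun β => rfl⟩,
      fun l hl => absurd hl (Finset.notMem_empty l), fun l _ y => rfl⟩
  | insert i T hi ih =>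
    obtain ⟨φ, hφ, S, ⟨σ, hσ1, hσ2⟩, h1, h2⟩ := ih
    obtain ⟨φ', hφ', h3, h4⟩ := hc i (ψ i) (hψ i)
    obtain ⟨S', ⟨σ', hσ'1, hσ'2⟩, h5, h6⟩ := lift_action D h (hs i) hφ' h3 h4
    refine ⟨φ' * φ, Ψ.mul_mem hφ' hφ, S' ∘ₗ S, ⟨σ.trans σ', fun β r hr =>
      hσ'1 _ _ (hσ1 β r hr), fun β => ?_⟩, fun l hl y => ?_, fun l hl y => ?_⟩
    · rw [LinearMap.comp_apply, hσ2, hσ'2]
      rfl
    · rw [LinearMap.comp_apply]
      rcases Finset.mem_insert.1 hl with rfl | hl'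
      · rw [h2 l hi, h5]
      · rw [h1 l hl', h6 l (fun h => hi (h ▸ hl'))]
    · rw [Finset.mem_insert, not_or] at hl
      rw [LinearMap.comp_apply, h2 l hl.2, h6 l hl.1]

/-- The covering of a class from the coverings of its components. -/
theorem cover_prod (D : IsVariety 𝒜 u Ψ) (h : IsProduct 𝒜 ℬ p d)
    {Ψ' : ∀ i, Subgroup (R' i ≃ₐ[ℂ] R' i)} (hc : ContainsProduct p Ψ' Ψ)
    {n : Fin k → ℕ} {w : ∀ i, Fin (n i) → Cl (ρ' i)} {x : Fin ρ → ℝ}
    (hx : ∀ i, ∃ ψ ∈ Ψ' i, ∃ s, IsAction (ℬ i) ψ s ∧ ∃ c : Fin (n i) → ℝ, (∀ a, 0 ≤ c a) ∧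
        s (rext (prj d i) x) = ∑ a, c a • real (w i a)) :
    ∃ φ ∈ Ψ, ∃ S, IsAction 𝒜 φ S ∧ ∃ c : Fin (∑ i, n i) → ℝ, (∀ a, 0 ≤ c a) ∧
      S x = ∑ a, c a • real (emb d (finSigmaFinEquiv.symm a).1
        (w (finSigmaFinEquiv.symm a).1 (finSigmaFinEquiv.symm a).2)) := by
  classical
  let e : (Σ i : Fin k, Fin (n i)) ≃ Fin (∑ i, n i) := finSigmaFinEquiv
  choose ψ hψ s hs c hc0 hcs using hx
  obtain ⟨φ, hφ, S, hS, h2, -⟩ := prod_action D h hc ψ hψ s hs Finset.univ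
  refine ⟨φ, hφ, S, hS, fun a => c (e.symm a).1 (e.symm a).2, fun a => hc0 _ _, ?_⟩
  have h3 : S x = ∑ i, ∑ a, c i a • rv (emb d i (w i a)) := by
    conv_lhs => rw [← prj_emb_sum (d := d) x, map_sum]
    refine Finset.sum_congr rfl fun i _ => ?_
    rw [h2 i (Finset.mem_univ i), hcs, map_sum]
    refine Finset.sum_congr rfl fun a _ => ?_
    rw [map_smul, real_eq, rext_rv]
  have h4 := Fintype.sum_sigma (fun q : (Σ i : Fin k, Fin (n i)) =>
    c q.1 q.2 • rv (emb d q.1 (w q.1 q.2)))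
  dsimp only at h4
  rw [h3, ← h4]
  refine Fintype.sum_equiv e _ _ fun q => ?_
  have h5 : finSigmaFinEquiv.symm (e q) = q := e.symm_apply_apply q
  dsimp only
  rw [h5]
  rfl

/-- **The movable cone conjecture for products.** -/
theorem holds_prod (D : IsVariety 𝒜 u Ψ) (h : IsProduct 𝒜 ℬ p d)
    {Ψ' : ∀ i, Subgroup (R' i ≃ₐ[ℂ] R' i)} (hc : ContainsProduct p Ψ' Ψ)
    {n : Fin k → ℕ} {w : ∀ i, Fin (n i) → Cl (ρ' i)} (hw : ∀ i, HoldsM (ℬ i) (Ψ' i) (w i)) :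
    ∃ (N : ℕ) (W : Fin N → Cl ρ), HoldsM 𝒜 Ψ W := by
  refine ⟨_, fun a => emb d (finSigmaFinEquiv.symm a).1
        (w (finSigmaFinEquiv.symm a).1 (finSigmaFinEquiv.symm a).2), fun a => ?_, ?_⟩
  · obtain ⟨h1, h2⟩ := (hw (finSigmaFinEquiv.symm a).1).mem (finSigmaFinEquiv.symm a).2
    rw [real_eq, ← rext_rv]
    exact ⟨mov_cone_emb h _ h1, eff_cone_emb h _ h2⟩
  · rintro x ⟨hx1, hx2⟩
    exact cover_prod D h hc fun i =>
      (hw i).cover _ ⟨mov_cone_prj h i hx1, eff_cone_prj h i hx2⟩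

omit [IsDomain R] [GradedAlgebra 𝒜] [∀ i, IsDomain (R' i)] [∀ i, GradedAlgebra (ℬ i)] in
theorem prj_surj (d : Cl ρ ≃+ ∀ i, Cl (ρ' i)) (i : Fin k) :
    Function.Surjective (rext (prj d i)) := by
  intro y
  refine ⟨rext (emb d i) y, ?_⟩
  have h1 : rext (prj d i) ∘ₗ rext (emb d i) = LinearMap.id := by
    refine lin_ext fun β => ?_
    rw [LinearMap.comp_apply, rext_rv, rext_rv, LinearMap.id_apply]
    congr 1
    change d (emb d i β) i = β
    rw [d_emb, Pi.single_eq_same]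
  exact LinearMap.congr_fun h1 y

/-- The covering of big classes for products. -/
theorem holds_prodBig (D : IsVariety 𝒜 u Ψ) (h : IsProduct 𝒜 ℬ p d)
    {Ψ' : ∀ i, Subgroup (R' i ≃ₐ[ℂ] R' i)} (hc : ContainsProduct p Ψ' Ψ)
    {n : Fin k → ℕ} {w : ∀ i, Fin (n i) → Cl (ρ' i)} (hw : ∀ i, HoldsBig (ℬ i) (Ψ' i) (w i)) :
    ∃ (N : ℕ) (W : Fin N → Cl ρ), HoldsBig 𝒜 Ψ W := by
  refine ⟨_, fun a => emb d (finSigmaFinEquiv.symm a).1
        (w (finSigmaFinEquiv.symm a).1 (finSigmaFinEquiv.symm a).2), fun a => ?_, ?_⟩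
  · have h1 := (hw (finSigmaFinEquiv.symm a).1).mem (finSigmaFinEquiv.symm a).2
    rw [real_eq, ← rext_rv]
    exact mov_cone_emb h _ h1
  · intro x hx
    refine cover_prod D h hc fun i => (hw i).cover _ ?_
    have h1 := (LinearMap.isOpenMap_of_finiteDimensional (rext (prj d i))
      (prj_surj d i)).image_interior_subset (movConeF 𝒜) (Set.mem_image_of_mem _ hx)
    refine interior_mono ?_ h1
    rintro _ ⟨y, hy, rfl⟩
    exact mov_cone_prj h i hy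

end Action

end Pool.Agent.J4H47.MG
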